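import Pool.Agent.R946.Race.Stm

/-!
The analytic part of the pattern race project.
-/

namespace Pool.Agent.R946.Race

open Finset Filter Topology

namespace Law

variable (L : Law)

lemma sum_le_one (n : ℕ) : ∑ m ∈ range n, L.f m ≤ 1 := by
  cases n with
  | zero => simp
  | succ n =>
    have h1 := L.hS n
    have h2 := L.hS0 n
    linarith

lemma summable_f : Summable L.f :=
  summable_of_sum_range_le L.hf0 L.sum_le_one

lemma tendsto_S : Tendsto L.S atTop (𝓝 0) := by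
  have h : Tendsto (fun n => ∑ j ∈ L.Bd, L.Q j * L.f (n + j)) atTop
      (𝓝 (∑ j ∈ L.Bd, L.Q j * 0)) := by
    apply tendsto_finsetSum
    intro j _
    apply Tendsto.const_mul
    exact L.summable_f.tendsto_atTop_zero.comp (tendsto_add_atTop_nat j)
  simp only [mul_zero, sum_const_zero] at h
  exact h.congr (fun n => (L.ren n).symm)

lemma hasSum_f : HasSum L.f 1 := by
  rw [L.summable_f.hasSum_iff_tendsto_nat]
  rw [← tendsto_add_atTop_iff_nat 1]
  have h : Tendsto (fun n => 1 - L.S n) atTop (𝓝 (1 - 0)) := tendsto_const_nhds.sub L.tendsto_S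
  rw [sub_zero] at h
  refine h.congr (fun n => ?_)
  rw [L.hS n]; ring

lemma tsum_f : ∑' n, L.f n = 1 := L.hasSum_f.tsum_eq

lemma f_zero : L.f 0 = 0 := L.hfk 0 L.hk

lemma S_succ (n : ℕ) : L.S (n + 1) = L.S n - L.f (n + 1) := by
  rw [L.hS, L.hS, sum_range_succ (fun m => L.f m) (n + 1)]; ring

lemma S_zero : L.S 0 = 1 := by
  rw [L.hS]; simp [L.f_zero]

lemma S_le_one (n : ℕ) : L.S n ≤ 1 := by
  rw [L.hS]
  have := sum_nonneg (fun m (_ : m ∈ range (n + 1)) => L.hf0 m)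
  linarith

lemma Qk_pos : 0 < L.Q L.k := L.hQ _ L.hkB

lemma f_le (n : ℕ) : L.f n ≤ (L.Q L.k)⁻¹ := by
  have hQ := L.Qk_pos
  by_cases h : n < L.k
  · rw [L.hfk n h]; positivity
  · push Not at h
    have h1 := L.ren (n - L.k)
    have h2 : L.Q L.k * L.f (n - L.k + L.k) ≤ ∑ j ∈ L.Bd, L.Q j * L.f (n - L.k + j) :=
      single_le_sum (f := fun j => L.Q j * L.f (n - L.k + j))
        (fun j hj => mul_nonneg (L.hQ j hj).le (L.hf0 _)) L.hkB
    rw [← h1, Nat.sub_add_cancel h] at h2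
    have h3 := L.S_le_one (n - L.k)
    rw [← one_div, le_div_iff₀ hQ]
    linarith

/-- the increments -/
noncomputable def g (n : ℕ) : ℝ := L.f (n + 1) - L.f n

lemma g_bound (n : ℕ) : L.Q L.k * |L.g (n + L.k)| ≤
    L.f (n + 1) + ∑ j ∈ L.Bd.erase L.k, L.Q j * |L.g (n + j)| := by
  have h1 := L.ren n
  have h2 := L.ren (n + 1)
  have h3 := L.S_succ n
  have h4 : ∑ j ∈ L.Bd, L.Q j * L.g (n + j) = - L.f (n + 1) := by
    have : ∑ j ∈ L.Bd, L.Q j * L.g (n + j) =
        ∑ j ∈ L.Bd, L.Q j * L.f (n + 1 + j) - ∑ j ∈ L.Bd, L.Q j * L.f (n + j) := by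
      rw [← sum_sub_distrib]
      apply sum_congr rfl
      intro j _
      unfold g
      rw [show n + j + 1 = n + 1 + j by ring]; ring
    rw [this, ← h1, ← h2, h3]; ring
  rw [← add_sum_erase _ _ L.hkB] at h4
  have h5 : L.Q L.k * L.g (n + L.k) =
      - (L.f (n + 1) + ∑ j ∈ L.Bd.erase L.k, L.Q j * L.g (n + j)) := by linarith
  have hQ := L.Qk_pos
  calc L.Q L.k * |L.g (n + L.k)| = |L.Q L.k * L.g (n + L.k)| := by
        rw [abs_mul, abs_of_pos hQ]
    _ = |L.f (n + 1) + ∑ j ∈ L.Bd.erase L.k, L.Q j * L.g (n + j)| := by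
        rw [h5, abs_neg]
    _ ≤ |L.f (n + 1)| + |∑ j ∈ L.Bd.erase L.k, L.Q j * L.g (n + j)| := abs_add_le _ _
    _ ≤ L.f (n + 1) + ∑ j ∈ L.Bd.erase L.k, L.Q j * |L.g (n + j)| := by
        rw [abs_of_nonneg (L.hf0 _)]
        gcongr
        refine (abs_sum_le_sum_abs _ _).trans (le_of_eq ?_)
        apply sum_congr rfl
        intro j hj
        rw [abs_mul, abs_of_pos (L.hQ j (mem_of_mem_erase hj))]

lemma g_head : ∑ m ∈ range L.k, |L.g m| ≤ (L.Q L.k)⁻¹ := by
  obtain ⟨k', hk'⟩ : ∃ k', L.k = k' + 1 := ⟨L.k - 1, by have := L.hk; omega⟩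
  rw [hk', sum_range_succ]
  have h1 : ∑ m ∈ range k', |L.g m| = 0 := by
    apply sum_eq_zero
    intro m hm
    rw [mem_range] at hm
    unfold g
    rw [L.hfk m (by omega), L.hfk (m + 1) (by omega)]; simp
  have h2 : |L.g k'| = L.f L.k := by
    unfold g
    rw [L.hfk k' (by omega), ← hk', sub_zero, abs_of_nonneg (L.hf0 _)]
  rw [h1, h2, ← hk', zero_add]
  exact L.f_le _

lemma var_partial (hW : L.mu ≤ 5 / 4 * L.Q L.k) (M : ℕ) :
    ∑ m ∈ range M, |L.g m| ≤ 8 / 3 * (L.Q L.k)⁻¹ := by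
  have hQ := L.Qk_pos
  set T := ∑ m ∈ range (L.k + M), |L.g m| with hT
  have hmono : ∀ a b : ℕ, a ≤ b → ∑ m ∈ range a, |L.g m| ≤ ∑ m ∈ range b, |L.g m| := by
    intro a b hab
    exact sum_le_sum_of_subset_of_nonneg (range_subset_range.2 hab) (fun _ _ _ => abs_nonneg _)
  have hM : ∑ m ∈ range M, |L.g m| ≤ T := hmono _ _ (by omega)
  refine hM.trans ?_
  have hsplit : T = ∑ m ∈ range L.k, |L.g m| + ∑ n ∈ range M, |L.g (L.k + n)| := by
    rw [hT, sum_range_add]
  have h1 : L.Q L.k * ∑ n ∈ range M, |L.g (L.k + n)| ≤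
      1 + (L.mu - L.Q L.k) * T := by
    rw [mul_sum]
    calc ∑ n ∈ range M, L.Q L.k * |L.g (L.k + n)|
        ≤ ∑ n ∈ range M, (L.f (n + 1) + ∑ j ∈ L.Bd.erase L.k, L.Q j * |L.g (n + j)|) := by
          apply sum_le_sum
          intro n _
          rw [add_comm L.k n]
          exact L.g_bound n
      _ = ∑ n ∈ range M, L.f (n + 1) +
          ∑ j ∈ L.Bd.erase L.k, L.Q j * ∑ n ∈ range M, |L.g (n + j)| := by
          rw [sum_add_distrib, sum_comm]
          congr 1
          apply sum_congr rfl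
          intro j _
          rw [mul_sum]
      _ ≤ 1 + ∑ j ∈ L.Bd.erase L.k, L.Q j * T := by
          gcongr with j hj
          · have := L.sum_le_one (M + 1)
            rw [sum_range_succ', L.f_zero] at this
            linarith
          · exact (L.hQ j (mem_of_mem_erase hj)).le
          · have hj2 := (L.hB j (mem_of_mem_erase hj)).2
            have : ∑ n ∈ range M, |L.g (n + j)| ≤ ∑ m ∈ range (j + M), |L.g m| := by
              rw [sum_range_add]
              have h0 : 0 ≤ ∑ x ∈ range j, |L.g x| := sum_nonneg (fun _ _ => abs_nonneg _)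
              have : ∑ n ∈ range M, |L.g (n + j)| = ∑ n ∈ range M, |L.g (j + n)| :=
                sum_congr rfl (fun n _ => by rw [add_comm])
              linarith
            exact this.trans (hmono _ _ (by omega))
      _ = 1 + (L.mu - L.Q L.k) * T := by
          rw [← sum_mul]
          congr 2
          unfold Law.mu
          rw [← add_sum_erase _ _ L.hkB]; ring
  have hT0 : 0 ≤ T := sum_nonneg (fun _ _ => abs_nonneg _)
  have h2 : L.Q L.k * T ≤ 1 + (1 + (L.mu - L.Q L.k) * T) := by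
    rw [hsplit, mul_add]
    rw [hsplit] at h1
    have := L.g_head
    have h3 : L.Q L.k * ∑ m ∈ range L.k, |L.g m| ≤ 1 := by
      calc L.Q L.k * ∑ m ∈ range L.k, |L.g m| ≤ L.Q L.k * (L.Q L.k)⁻¹ := by gcongr
        _ = 1 := mul_inv_cancel₀ hQ.ne'
    linarith
  have h3 : (L.mu - L.Q L.k) * T ≤ 1 / 4 * L.Q L.k * T := by
    apply mul_le_mul_of_nonneg_right _ hT0
    linarith
  have h4 : 3 / 4 * (L.Q L.k * T) ≤ 2 := by linarith
  have h5 : L.Q L.k * T ≤ 8 / 3 := by linarith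
  rw [← div_eq_mul_inv, le_div_iff₀ hQ]
  linarith

lemma summable_g (hW : L.mu ≤ 5 / 4 * L.Q L.k) : Summable (fun n => |L.g n|) :=
  summable_of_sum_range_le (fun _ => abs_nonneg _) (L.var_partial hW)

lemma tsum_g (hW : L.mu ≤ 5 / 4 * L.Q L.k) : ∑' n, |L.g n| ≤ 8 / 3 * (L.Q L.k)⁻¹ :=
  Real.tsum_le_of_sum_range_le (fun _ => abs_nonneg _) (L.var_partial hW)

end Law

end Pool.Agent.R946.Race
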