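import Pool.Agent.R946.Race.A

/-!
The analytic part of the pattern race project, two laws.
-/

namespace Pool.Agent.R946.Race

open Finset Filter Topology

/-- mass function of the sum of the two waiting times -/
noncomputable def phi (A B : Law) (n : ℕ) : ℝ := ∑ l ∈ range (n + 1), A.f (n - l) * B.f l

lemma phi_comm (A B : Law) (n : ℕ) : phi A B n = phi B A n := by
  unfold phi
  rw [← sum_range_reflect]
  apply sum_congr rfl
  intro l hl
  rw [mem_range] at hl
  rw [show n + 1 - 1 - l = n - l by omega, show n - (n - l) = l by omega, mul_comm]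

lemma phi_eq (A B : Law) (n : ℕ) :
    phi A B n = ∑ kl ∈ antidiagonal n, A.f kl.1 * B.f kl.2 := by
  rw [Finset.Nat.sum_antidiagonal_eq_sum_range_succ (fun i j => A.f i * B.f j) n]
  rw [phi_comm]
  unfold phi
  apply sum_congr rfl
  intro l _
  rw [mul_comm]

lemma phi_nonneg (A B : Law) (n : ℕ) : 0 ≤ phi A B n :=
  sum_nonneg (fun _ _ => mul_nonneg (A.hf0 _) (B.hf0 _))

lemma phi_zero (A B : Law) : phi A B 0 = 0 := by
  unfold phi; simp [A.f_zero]

/-- shift of the convolution -/
lemma phi_shift (A B : Law) (n j : ℕ) (hj : j ≤ A.k) :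
    phi A B (n + j) = ∑ l ∈ range (n + 1), A.f (n - l + j) * B.f l := by
  unfold phi
  rw [show n + j + 1 = (n + 1) + j by ring, sum_range_add]
  have h2 : ∑ x ∈ range j, A.f (n + j - (n + 1 + x)) * B.f (n + 1 + x) = 0 := by
    apply sum_eq_zero
    intro x hx
    rw [mem_range] at hx
    rw [A.hfk _ (by omega), zero_mul]
  rw [h2, add_zero]
  apply sum_congr rfl
  intro l hl
  rw [mem_range] at hl
  rw [show n + j - l = n - l + j by omega]

/-- `P(tau_B ≤ n < tau_A + tau_B)` -/
noncomputable def U (A B : Law) (n : ℕ) : ℝ := ∑ l ∈ range (n + 1), A.S (n - l) * B.f l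

lemma U_eq_borders (A B : Law) (n : ℕ) :
    U A B n = ∑ j ∈ A.Bd, A.Q j * phi A B (n + j) := by
  unfold U
  have h1 : ∀ j ∈ A.Bd, A.Q j * phi A B (n + j) =
      ∑ l ∈ range (n + 1), A.Q j * A.f (n - l + j) * B.f l := by
    intro j hj
    rw [phi_shift A B n j (A.hB j hj).2, mul_sum]
    apply sum_congr rfl
    intro l _; ring
  rw [sum_congr rfl h1, sum_comm]
  apply sum_congr rfl
  intro l _
  rw [A.ren, sum_mul]

lemma U_eq_sub (A B : Law) (n : ℕ) :
    U A B n = (1 - B.S n) - ∑ t ∈ range (n + 1), phi A B t := by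
  induction n with
  | zero => 
    unfold U
    simp [A.S_zero, B.S_zero, B.f_zero, phi_zero]
  | succ n ih =>
    rw [sum_range_succ, B.S_succ]
    have h1 : U A B (n + 1) = U A B n - phi A B (n + 1) + B.f (n + 1) := by
      unfold U phi
      rw [sum_range_succ, sum_range_succ (fun l => A.f (n + 1 - l) * B.f l)]
      rw [Nat.sub_self, A.S_zero, A.f_zero, zero_mul, one_mul, add_zero]
      rw [← sum_sub_distrib]
      congr 1
      apply sum_congr rfl
      intro l hl
      rw [mem_range] at hl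
      rw [show n + 1 - l = (n - l) + 1 by omega, A.S_succ]; ring
    rw [h1, ih]; ring

/-- The key identity for the difference of the two survival functions. -/
lemma S_sub (A B : Law) (n : ℕ) :
    A.S n - B.S n = ∑ j ∈ A.Bd, A.Q j * phi A B (n + j) - ∑ j ∈ B.Bd, B.Q j * phi A B (n + j) := by
  rw [← U_eq_borders]
  have h1 := U_eq_sub A B n
  have h2 := U_eq_sub B A n
  have h3 : ∑ j ∈ B.Bd, B.Q j * phi A B (n + j) = U B A n := by
    rw [U_eq_borders]
    exact sum_congr rfl (fun j _ => by rw [phi_comm])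
  rw [h3, h1, h2]
  rw [sum_congr rfl (fun t _ => phi_comm A B t)]
  ring

lemma hasSum_phi (A B : Law) : HasSum (phi A B) 1 := by
  have hA : Summable (fun n => ‖A.f n‖) := A.summable_f.norm
  have hB : Summable (fun n => ‖B.f n‖) := B.summable_f.norm
  have h1 := summable_norm_sum_mul_antidiagonal_of_summable_norm hA hB
  have h2 := tsum_mul_tsum_eq_tsum_sum_antidiagonal_of_summable_norm hA hB
  have h3 : (fun n => ∑ kl ∈ antidiagonal n, A.f kl.1 * B.f kl.2) = phi A B :=
    funext (fun n => (phi_eq A B n).symm)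
  rw [A.tsum_f, B.tsum_f, h3, mul_one] at h2
  have h4 : Summable (phi A B) := by
    rw [← h3]; exact h1.of_norm
  rw [h2]; exact h4.hasSum

lemma summable_phi (A B : Law) : Summable (phi A B) := (hasSum_phi A B).summable

lemma summable_phi_shift (A B : Law) (j : ℕ) : Summable (fun n => phi A B (n + j)) :=
  (summable_nat_add_iff j).2 (summable_phi A B)

/-- bounded times summable -/
lemma summable_mul_bdd {a b : ℕ → ℝ} (ha : Summable a) (ha0 : ∀ n, 0 ≤ a n) {C : ℝ}
    (hb0 : ∀ n, 0 ≤ b n) (hb : ∀ n, b n ≤ C) : Summable (fun n => a n * b n) := by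
  refine Summable.of_nonneg_of_le (fun n => mul_nonneg (ha0 n) (hb0 n))
    (fun n => mul_le_mul_of_nonneg_left (hb n) (ha0 n)) (ha.mul_right C)

lemma summable_fS (A B : Law) : Summable (fun n => A.f n * B.S n) :=
  summable_mul_bdd A.summable_f A.hf0 B.hS0 B.S_le_one

lemma summable_ff (A B : Law) : Summable (fun n => A.f n * B.f n) :=
  summable_mul_bdd A.summable_f A.hf0 B.hf0 B.f_le

/-- the weights -/
noncomputable def bb (B : Law) (n : ℕ) : ℝ := B.f n + B.f (n + 1)

lemma bb_nonneg (B : Law) (n : ℕ) : 0 ≤ bb B n := add_nonneg (B.hf0 _) (B.hf0 _)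

lemma bb_le (B : Law) (n : ℕ) : bb B n ≤ 2 * (B.Q B.k)⁻¹ := by
  unfold bb
  have := B.f_le n
  have := B.f_le (n + 1)
  linarith

noncomputable def chi (A B : Law) (j : ℕ) : ℝ := ∑' n, phi A B (n + j) * bb B n

lemma summable_chi (A B : Law) (j : ℕ) : Summable (fun n => phi A B (n + j) * bb B n) :=
  summable_mul_bdd (summable_phi_shift A B j) (fun n => phi_nonneg A B _) (bb_nonneg B) (bb_le B)

lemma summable_bb (B : Law) : Summable (bb B) :=
  B.summable_f.add ((summable_nat_add_iff 1).2 B.summable_f)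

lemma summable_Dbb (A B : Law) : Summable (fun n => (A.S n - B.S n) * bb B n) := by
  have h1 : Summable (fun n => bb B n * A.S n) :=
    summable_mul_bdd (summable_bb B) (bb_nonneg B) A.hS0 A.S_le_one
  have h2 : Summable (fun n => bb B n * B.S n) :=
    summable_mul_bdd (summable_bb B) (bb_nonneg B) B.hS0 B.S_le_one
  refine (h1.sub h2).congr (fun n => by ring)

/-- Abel summation. -/
lemma omega_eq_Dbb (A B : Law) : omega A B = - ∑' n, (A.S n - B.S n) * bb B n := by
  have hs1 := summable_fS A B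
  have hs2 := summable_fS B A
  have hs3 := summable_Dbb A B
  have hs : Summable (fun n => (A.f n * B.S n - B.f n * A.S n) + (A.S n - B.S n) * bb B n) :=
    (hs1.sub hs2).add hs3
  have hpart : ∀ M : ℕ, ∑ n ∈ range (M + 1),
      ((A.f n * B.S n - B.f n * A.S n) + (A.S n - B.S n) * bb B n) =
      - ((A.S M - B.S M) * B.S (M + 1)) := by
    intro M
    induction M with
    | zero => 
      rw [sum_range_one]
      simp [bb, A.f_zero, B.f_zero, A.S_zero, B.S_zero]
    | succ M ih =>
      rw [sum_range_succ, ih]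
      unfold bb
      rw [B.S_succ (M + 1), A.S_succ M, B.S_succ M]
      ring
  have hlim : Tendsto (fun M : ℕ => - ((A.S M - B.S M) * B.S (M + 1))) atTop (𝓝 0) := by
    have h1 := A.tendsto_S.sub B.tendsto_S
    have h2 := (B.tendsto_S).comp (tendsto_add_atTop_nat 1)
    have h3 := (h1.mul h2).neg
    simpa using h3
  have hz : ∑' n, ((A.f n * B.S n - B.f n * A.S n) + (A.S n - B.S n) * bb B n) = 0 := by
    have h1 := hs.hasSum.tendsto_sum_nat
    have h2 := h1.comp (tendsto_add_atTop_nat 1)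
    refine tendsto_nhds_unique h2 ?_
    refine hlim.congr (fun M => (hpart M).symm)
  rw [(hs1.sub hs2).tsum_add hs3, hs1.tsum_sub hs2] at hz
  unfold omega
  linarith

lemma omega_eq_chi (A B : Law) :
    omega A B = ∑ j ∈ B.Bd, B.Q j * chi A B j - ∑ j ∈ A.Bd, A.Q j * chi A B j := by
  rw [omega_eq_Dbb]
  have h1 : ∀ n, (A.S n - B.S n) * bb B n =
      ∑ j ∈ A.Bd, A.Q j * (phi A B (n + j) * bb B n) -
        ∑ j ∈ B.Bd, B.Q j * (phi A B (n + j) * bb B n) := by
    intro n
    rw [S_sub, sub_mul, sum_mul, sum_mul]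
    congr 1 <;> exact sum_congr rfl (fun j _ => by ring)
  rw [tsum_congr h1]
  have hA : ∀ j ∈ A.Bd, Summable (fun n => A.Q j * (phi A B (n + j) * bb B n)) :=
    fun j _ => (summable_chi A B j).mul_left _
  have hB : ∀ j ∈ B.Bd, Summable (fun n => B.Q j * (phi A B (n + j) * bb B n)) :=
    fun j _ => (summable_chi A B j).mul_left _
  rw [(summable_sum hA).tsum_sub (summable_sum hB)]
  rw [Summable.tsum_finsetSum hA, Summable.tsum_finsetSum hB]
  have e1 : ∀ j ∈ A.Bd, ∑' n, A.Q j * (phi A B (n + j) * bb B n) = A.Q j * chi A B j :=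
    fun j _ => tsum_mul_left
  have e2 : ∀ j ∈ B.Bd, ∑' n, B.Q j * (phi A B (n + j) * bb B n) = B.Q j * chi A B j :=
    fun j _ => tsum_mul_left
  rw [sum_congr rfl e1, sum_congr rfl e2]
  ring

lemma omega_swap (A B : Law) : omega A B = - omega B A := by
  unfold omega; ring

theorem stmOmegaZero : StmOmegaZero := by
  intro A B hBd hQ
  rw [omega_eq_chi, ← hBd]
  rw [sub_eq_zero]
  apply sum_congr rfl
  intro j hj
  rw [hQ j hj]

end Pool.Agent.R946.Race
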