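import Pool.Agent.R946.Race.A2

/-!
The analytic part of the pattern race project: variation and lower bounds.
-/

namespace Pool.Agent.R946.Race

open Finset Filter Topology

lemma phi_diff_le (A B : Law) (n : ℕ) :
    |phi A B (n + 1) - phi A B n| ≤ ∑ kl ∈ antidiagonal n, |A.g kl.1| * B.f kl.2 := by
  have h1 : phi A B (n + 1) = ∑ kl ∈ antidiagonal n, A.f (kl.1 + 1) * B.f kl.2 := by
    rw [phi_shift A B n 1 A.hk, Finset.Nat.sum_antidiagonal_eq_sum_range_succ
      (fun i j => A.f (i + 1) * B.f j) n, ← sum_range_reflect]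
    apply sum_congr rfl
    intro l hl
    rw [mem_range] at hl
    rw [show n + 1 - 1 - l = n - l by omega, show n - (n - l) = l by omega]
  rw [h1, phi_eq, ← sum_sub_distrib]
  refine (abs_sum_le_sum_abs _ _).trans (le_of_eq ?_)
  apply sum_congr rfl
  intro kl _
  rw [← sub_mul, abs_mul, abs_of_nonneg (B.hf0 _)]
  rfl

lemma phi_var (A B : Law) (hW : A.mu ≤ 5 / 4 * A.Q A.k) :
    Summable (fun n => |phi A B (n + 1) - phi A B n|) ∧
    ∑' n, |phi A B (n + 1) - phi A B n| ≤ 8 / 3 * (A.Q A.k)⁻¹ := by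
  have hA : Summable (fun n => ‖|A.g n|‖) := (A.summable_g hW).norm
  have hB : Summable (fun n => ‖B.f n‖) := B.summable_f.norm
  have h1 := (summable_norm_sum_mul_antidiagonal_of_summable_norm hA hB).of_norm
  have h2 := tsum_mul_tsum_eq_tsum_sum_antidiagonal_of_summable_norm hA hB
  rw [B.tsum_f, mul_one] at h2
  have h3 := Summable.of_nonneg_of_le (fun n => abs_nonneg _) (phi_diff_le A B) h1
  refine ⟨h3, ?_⟩
  calc ∑' n, |phi A B (n + 1) - phi A B n|
      ≤ ∑' n, ∑ kl ∈ antidiagonal n, |A.g kl.1| * B.f kl.2 :=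
        h3.tsum_le_tsum (phi_diff_le A B) h1
    _ = ∑' n, |A.g n| := h2.symm
    _ ≤ _ := A.tsum_g hW

lemma chi_step (A B : Law) (hW : A.mu ≤ 5 / 4 * A.Q A.k) (j : ℕ) :
    |chi A B (j + 1) - chi A B j| ≤ 16 / 3 * ((A.Q A.k)⁻¹ * (B.Q B.k)⁻¹) := by
  obtain ⟨hs, hv⟩ := phi_var A B hW
  have hQA := A.Qk_pos
  have hQB := B.Qk_pos
  have h1 : chi A B (j + 1) - chi A B j =
      ∑' n, (phi A B (n + (j + 1)) * bb B n - phi A B (n + j) * bb B n) := by
    unfold chi
    rw [(summable_chi A B (j + 1)).tsum_sub (summable_chi A B j)]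
  have hsh : Summable (fun n => |phi A B (n + j + 1) - phi A B (n + j)|) :=
    (summable_nat_add_iff (f := fun n => |phi A B (n + 1) - phi A B n|) j).2 hs
  have hs2 : Summable (fun n => |phi A B (n + j + 1) - phi A B (n + j)| * bb B n) :=
    summable_mul_bdd hsh (fun _ => abs_nonneg _) (bb_nonneg B) (bb_le B)
  have hterm : ∀ n, ‖phi A B (n + (j + 1)) * bb B n - phi A B (n + j) * bb B n‖ ≤
      |phi A B (n + j + 1) - phi A B (n + j)| * bb B n := by
    intro n
    rw [← sub_mul, Real.norm_eq_abs, abs_mul, abs_of_nonneg (bb_nonneg B n), ← add_assoc]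
  rw [h1]
  have h2 := tsum_of_norm_bounded hs2.hasSum hterm
  rw [Real.norm_eq_abs] at h2
  refine h2.trans ?_
  calc ∑' n, |phi A B (n + j + 1) - phi A B (n + j)| * bb B n
      ≤ ∑' n, |phi A B (n + j + 1) - phi A B (n + j)| * (2 * (B.Q B.k)⁻¹) :=
        hs2.tsum_le_tsum (fun n => mul_le_mul_of_nonneg_left (bb_le B n) (abs_nonneg _))
          (hsh.mul_right _)
    _ = (∑' n, |phi A B (n + j + 1) - phi A B (n + j)|) * (2 * (B.Q B.k)⁻¹) := tsum_mul_right
    _ ≤ (8 / 3 * (A.Q A.k)⁻¹) * (2 * (B.Q B.k)⁻¹) := by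
        gcongr
        refine le_trans ?_ hv
        have h3 := hs.sum_add_tsum_nat_add j
        have h4 : 0 ≤ ∑ i ∈ range j, |phi A B (i + 1) - phi A B i| :=
          sum_nonneg (fun _ _ => abs_nonneg _)
        linarith
    _ = _ := by ring

lemma chi_var (A B : Law) (hW : A.mu ≤ 5 / 4 * A.Q A.k) (i d : ℕ) :
    |chi A B (i + d) - chi A B i| ≤ d * (16 / 3 * ((A.Q A.k)⁻¹ * (B.Q B.k)⁻¹)) := by
  induction d with
  | zero => simp
  | succ d ih =>
    have h1 := chi_step A B hW (i + d)
    have h2 : |chi A B (i + (d + 1)) - chi A B i| ≤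
        |chi A B (i + d + 1) - chi A B (i + d)| + |chi A B (i + d) - chi A B i| := by
      rw [← add_assoc]
      exact abs_sub_le _ _ _
    push_cast
    linarith

lemma chi_close (A B : Law) (hW : A.mu ≤ 5 / 4 * A.Q A.k) (K i j : ℕ) (hi : i ≤ K) (hj : j ≤ K) :
    |chi A B j - chi A B i| ≤ K * (16 / 3 * ((A.Q A.k)⁻¹ * (B.Q B.k)⁻¹)) := by
  have hQA := A.Qk_pos
  have hQB := B.Qk_pos
  rcases le_total i j with h | h
  · obtain ⟨d, rfl⟩ := Nat.exists_eq_add_of_le h
    refine (chi_var A B hW i d).trans ?_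
    have : (d : ℝ) ≤ K := by exact_mod_cast (by omega : d ≤ K)
    gcongr
  · obtain ⟨d, rfl⟩ := Nat.exists_eq_add_of_le h
    rw [abs_sub_comm]
    refine (chi_var A B hW j d).trans ?_
    have : (d : ℝ) ≤ K := by exact_mod_cast (by omega : d ≤ K)
    gcongr

/-- total probability of a race -/
lemma total (A B : Law) :
    ∑' n, A.f n * B.S n + ∑' n, B.f n * A.S n + ∑' n, A.f n * B.f n = 1 := by
  have hs1 := summable_fS A B
  have hs2 := summable_fS B A
  have hs3 := summable_ff A B
  have hs := (hs1.add hs2).add hs3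
  have hpart : ∀ M : ℕ, ∑ n ∈ range (M + 1),
      (A.f n * B.S n + B.f n * A.S n + A.f n * B.f n) = 1 - A.S M * B.S M := by
    intro M
    induction M with
    | zero =>
      rw [sum_range_one]
      simp [A.f_zero, B.f_zero, A.S_zero, B.S_zero]
    | succ M ih =>
      rw [sum_range_succ, ih, B.S_succ M, A.S_succ M]
      ring
  have hlim : Tendsto (fun M : ℕ => 1 - A.S M * B.S M) atTop (𝓝 1) := by
    have h3 := (A.tendsto_S.mul B.tendsto_S).const_sub 1
    simpa using h3
  have h1 := hs.hasSum.tendsto_sum_nat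
  have h2 := h1.comp (tendsto_add_atTop_nat 1)
  have h3 := tendsto_nhds_unique h2 (hlim.congr (fun M => (hpart M).symm))
  rw [(hs1.add hs2).tsum_add hs3, hs1.tsum_add hs2] at h3
  exact h3

/-- lower bound for `P(tau_B ≤ tau_B' < tau_A + tau_B)` -/
lemma p1_ge (A B : Law) :
    (∑' n, B.f n * A.S n) / 2 ≤ ∑' n, B.f n * U A B n := by
  set x := ∑' n, B.f n * B.S n with hx
  set z := ∑' n, B.f n * A.S n with hz
  set y := ∑' n, A.f (n + 1) * B.S n with hy
  have hU0 : ∀ n, 0 ≤ U A B n := fun n =>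
    sum_nonneg (fun _ _ => mul_nonneg (A.hS0 _) (B.hf0 _))
  have hU1 : ∀ n, U A B n ≤ 1 := by
    intro n
    rw [U_eq_sub]
    have := sum_nonneg (fun t (_ : t ∈ range (n + 1)) => phi_nonneg A B t)
    have := B.hS0 n
    linarith
  have hsU : Summable (fun n => B.f n * U A B n) := summable_mul_bdd B.summable_f B.hf0 hU0 hU1
  -- x ≤ 1/2
  have hx2 : x ≤ 1 / 2 := by
    have h1 := total B B
    have h2 : 0 ≤ ∑' n, B.f n * B.f n := tsum_nonneg (fun n => mul_nonneg (B.hf0 _) (B.hf0 _))
    linarith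
  have hx0 : 0 ≤ x := tsum_nonneg (fun n => mul_nonneg (B.hf0 _) (B.hS0 _))
  have hz0 : 0 ≤ z := tsum_nonneg (fun n => mul_nonneg (B.hf0 _) (A.hS0 _))
  -- y = 1 - z
  have hyz : y = 1 - z := by
    have h1 := total A B
    have hsA : Summable (fun n => A.f (n + 1) * B.S n) :=
      summable_mul_bdd ((summable_nat_add_iff 1).2 A.summable_f) (fun n => A.hf0 _) B.hS0 B.S_le_one
    have h2 : ∑' n, A.f n * B.S n + ∑' n, A.f n * B.f n = y := by
      rw [← (summable_fS A B).tsum_add (summable_ff A B)]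
      have h3 : Summable (fun n => A.f n * B.S n + A.f n * B.f n) :=
        (summable_fS A B).add (summable_ff A B)
      rw [h3.tsum_eq_zero_add, A.f_zero]
      simp only [zero_mul, add_zero, zero_add]
      rw [hy]
      apply tsum_congr
      intro n
      rw [B.S_succ]; ring
    linarith
  -- decomposition
  have hz1 : z ≤ 1 := by
    have : 0 ≤ y := tsum_nonneg (fun n => mul_nonneg (A.hf0 _) (B.hS0 _))
    linarith
  set PH := fun n => ∑ t ∈ range (n + 1), phi A B t with hPH
  have hPH0 : ∀ n, 0 ≤ PH n := fun n => sum_nonneg (fun t _ => phi_nonneg A B t)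
  have hPH1 : ∀ n, PH n ≤ 1 := by
    intro n
    have h1 := (hasSum_phi A B).tsum_eq
    rw [← h1]
    exact (summable_phi A B).sum_le_tsum _ (fun t _ => phi_nonneg A B t)
  have hsP : Summable (fun n => B.f n * PH n) := summable_mul_bdd B.summable_f B.hf0 hPH0 hPH1
  have hdec : ∑' n, B.f n * U A B n = (1 - x) - ∑' n, B.f n * PH n := by
    have h1 : ∀ n, B.f n * U A B n = (B.f n - B.f n * B.S n) - B.f n * PH n := by
      intro n
      rw [U_eq_sub]; ring
    rw [tsum_congr h1, (B.summable_f.sub (summable_fS B B)).tsum_sub hsP,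
      B.summable_f.tsum_sub (summable_fS B B), B.tsum_f]
  -- bound of the last sum by x * y
  have hbound : ∑' n, B.f n * PH n ≤ x * y := by
    have hAB : Summable (fun n => ‖A.f (n + 1) * B.S n‖) :=
      (summable_mul_bdd ((summable_nat_add_iff 1).2 A.summable_f) (fun n => A.hf0 _)
        B.hS0 B.S_le_one).norm
    have hBB : Summable (fun n => ‖B.f n * B.S n‖) := (summable_fS B B).norm
    have hc1 := (summable_norm_sum_mul_antidiagonal_of_summable_norm hAB hBB).of_norm
    have hc2 := tsum_mul_tsum_eq_tsum_sum_antidiagonal_of_summable_norm hAB hBB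
    rw [← hy, ← hx] at hc2
    have hterm : ∀ n, B.S n * phi A B (n + 1) ≤
        ∑ kl ∈ antidiagonal n, (A.f (kl.1 + 1) * B.S kl.1) * (B.f kl.2 * B.S kl.2) := by
      intro n
      have h1 : phi A B (n + 1) = ∑ kl ∈ antidiagonal n, A.f (kl.1 + 1) * B.f kl.2 := by
        rw [phi_shift A B n 1 A.hk, Finset.Nat.sum_antidiagonal_eq_sum_range_succ
          (fun i j => A.f (i + 1) * B.f j) n, ← sum_range_reflect]
        apply sum_congr rfl
        intro l hl
        rw [mem_range] at hl
        rw [show n + 1 - 1 - l = n - l by omega, show n - (n - l) = l by omega]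
      rw [h1, mul_sum]
      apply sum_le_sum
      intro kl hkl
      rw [HasAntidiagonal.mem_antidiagonal] at hkl
      rw [← hkl]
      have h2 := B.sub kl.1 kl.2
      have h3 : 0 ≤ A.f (kl.1 + 1) * B.f kl.2 := mul_nonneg (A.hf0 _) (B.hf0 _)
      nlinarith
    have hpart : ∀ M : ℕ, ∑ n ∈ range M, B.f (n + 1) * PH (n + 1) + B.S M * PH M =
        ∑ n ∈ range M, B.S n * phi A B (n + 1) := by
      intro M
      induction M with
      | zero => simp [hPH, phi_zero]
      | succ M ih =>
        rw [sum_range_succ, sum_range_succ (fun n => B.S n * phi A B (n + 1)), ← ih, B.S_succ]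
        have h1 : PH (M + 1) = PH M + phi A B (M + 1) := by
          rw [hPH]; simp only []
          rw [sum_range_succ (fun t => phi A B t) (M + 1)]
        rw [h1]; ring
    have hle : ∀ M : ℕ, ∑ n ∈ range M, B.f n * PH n ≤ x * y := by
      intro M
      cases M with
      | zero => 
        simp only [range_zero, sum_empty]
        have : 0 ≤ y := tsum_nonneg (fun n => mul_nonneg (A.hf0 _) (B.hS0 _))
        positivity
      | succ M =>
        rw [sum_range_succ', B.f_zero, zero_mul, add_zero]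
        have h1 := hpart M
        have h2 : 0 ≤ B.S M * PH M := mul_nonneg (B.hS0 _) (hPH0 _)
        have h3 : ∑ n ∈ range M, B.S n * phi A B (n + 1) ≤ x * y := by
          calc ∑ n ∈ range M, B.S n * phi A B (n + 1)
              ≤ ∑ n ∈ range M, ∑ kl ∈ antidiagonal n,
                (A.f (kl.1 + 1) * B.S kl.1) * (B.f kl.2 * B.S kl.2) :=
                sum_le_sum (fun n _ => hterm n)
            _ ≤ ∑' n, ∑ kl ∈ antidiagonal n,
                (A.f (kl.1 + 1) * B.S kl.1) * (B.f kl.2 * B.S kl.2) := by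
                apply hc1.sum_le_tsum
                intro n _
                apply sum_nonneg
                intro kl _
                exact mul_nonneg (mul_nonneg (A.hf0 _) (B.hS0 _)) (mul_nonneg (B.hf0 _) (B.hS0 _))
            _ = x * y := by rw [← hc2, mul_comm]
        linarith
    exact Real.tsum_le_of_sum_range_le (fun n => mul_nonneg (B.hf0 _) (hPH0 _)) hle
  rw [hdec]
  rw [hyz] at hbound
  have : (1 - 2 * x) * (1 - z / 2) ≥ 0 := by
    apply mul_nonneg
    · linarith
    · linarith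
  nlinarith

lemma p1_eq (A B : Law) :
    ∑' n, B.f n * U A B n ≤ ∑ j ∈ A.Bd, A.Q j * chi A B j := by
  have h1 : ∀ n, B.f n * U A B n = ∑ j ∈ A.Bd, A.Q j * (phi A B (n + j) * B.f n) := by
    intro n
    rw [U_eq_borders, mul_sum]
    exact sum_congr rfl (fun j _ => by ring)
  have hs : ∀ j : ℕ, Summable (fun n => phi A B (n + j) * B.f n) := fun j =>
    summable_mul_bdd (summable_phi_shift A B j) (fun n => phi_nonneg A B _) B.hf0 B.f_le
  rw [tsum_congr h1, Summable.tsum_finsetSum (fun j _ => (hs j).mul_left _)]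
  apply sum_le_sum
  intro j hj
  rw [tsum_mul_left]
  apply mul_le_mul_of_nonneg_left _ (A.hQ j hj).le
  unfold chi
  apply (hs j).tsum_le_tsum _ (summable_chi A B j)
  intro n
  apply mul_le_mul_of_nonneg_left _ (phi_nonneg A B _)
  unfold bb
  have := B.hf0 (n + 1)
  linarith

end Pool.Agent.R946.Race
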