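import Pool.Agent.R946.Race.A3

/-!
The analytic part of the pattern race project: conclusion.
-/

namespace Pool.Agent.R946.Race

open Finset Filter Topology

/-- The core estimate when `B` has a good chance to be first. -/
lemma core (A B : Law) (K : ℕ) (r : ℝ) (hAK : A.k ≤ K)
    (hWA : A.mu ≤ 5 / 4 * A.Q A.k)
    (hKB : 800 * (K : ℝ) ≤ B.Q B.k)
    (hrB : 100 * (K : ℝ) ≤ r * B.Q B.k)
    (hz : 49 / 100 ≤ ∑' n, B.f n * A.S n) :
    ∃ c0 η : ℝ, 0 < c0 - η ∧ 2 * η ≤ r * (c0 - η) ∧ 0 ≤ η ∧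
      ∀ j ≤ K, |chi A B j - c0| ≤ η := by
  have hQA := A.Qk_pos
  have hQB := B.Qk_pos
  set PA := (A.Q A.k)⁻¹ with hPA
  set PB := (B.Q B.k)⁻¹ with hPB
  have hPA0 : 0 < PA := by positivity
  have hPB0 : 0 < PB := by positivity
  have e1 : PA * A.Q A.k = 1 := inv_mul_cancel₀ hQA.ne'
  have e2 : PB * B.Q B.k = 1 := inv_mul_cancel₀ hQB.ne'
  have hKPB : (K : ℝ) * PB ≤ 1 / 800 := by
    have : 800 * (K : ℝ) * PB ≤ B.Q B.k * PB := by gcongr
    linarith
  have hrB' : 100 * (K : ℝ) * PB ≤ r := by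
    have : 100 * (K : ℝ) * PB ≤ r * B.Q B.k * PB := by gcongr
    have e3 : r * B.Q B.k * PB = r := by rw [mul_assoc, mul_comm (B.Q B.k), e2, mul_one]
    linarith
  set η := (K : ℝ) * (16 / 3 * (PA * PB)) with hη
  have hη0 : 0 ≤ η := by positivity
  have hηle : η ≤ PA * (16 / 3 / 800) := by
    have : η = PA * (16 / 3) * (K * PB) := by rw [hη]; ring
    rw [this]
    calc PA * (16 / 3) * (K * PB) ≤ PA * (16 / 3) * (1 / 800) := by gcongr
      _ = _ := by ring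
  set c0 := chi A B A.k with hc0
  have hclose : ∀ j ≤ K, |chi A B j - c0| ≤ η := fun j hj =>
    chi_close A B hWA K A.k j hAK hj
  have hlow : 49 / 200 ≤ ∑ j ∈ A.Bd, A.Q j * chi A B j := by
    have h1 := p1_ge A B
    have h2 := p1_eq A B
    linarith
  have hup : ∑ j ∈ A.Bd, A.Q j * chi A B j ≤ A.mu * (c0 + η) := by
    unfold Law.mu
    rw [sum_mul]
    apply sum_le_sum
    intro j hj
    apply mul_le_mul_of_nonneg_left _ (A.hQ j hj).le
    have h1 := hclose j ((A.hB j hj).2.trans hAK)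
    have h2 := (abs_le.1 h1).2
    linarith
  have hc1 : 0 < c0 + η := by
    by_contra hneg
    push Not at hneg
    have hmu : 0 ≤ A.mu := sum_nonneg (fun j hj => (A.hQ j hj).le)
    have : A.mu * (c0 + η) ≤ 0 := mul_nonpos_of_nonneg_of_nonpos hmu hneg
    linarith
  have hc2 : 49 / 200 ≤ 5 / 4 * A.Q A.k * (c0 + η) := by
    calc (49 : ℝ) / 200 ≤ A.mu * (c0 + η) := hlow.trans hup
      _ ≤ 5 / 4 * A.Q A.k * (c0 + η) := by gcongr
  have hc3 : 196 / 1000 * PA ≤ c0 + η := by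
    have : 49 / 200 * PA ≤ 5 / 4 * A.Q A.k * (c0 + η) * PA := by gcongr
    have e3 : 5 / 4 * A.Q A.k * (c0 + η) * PA = 5 / 4 * (c0 + η) := by
      rw [show 5 / 4 * A.Q A.k * (c0 + η) * PA = 5 / 4 * (c0 + η) * (PA * A.Q A.k) by ring, e1,
        mul_one]
    linarith
  have hc4 : 18 / 100 * PA ≤ c0 - η := by
    have : (196 : ℝ) / 1000 * PA - 2 * (PA * (16 / 3 / 800)) ≥ 18 / 100 * PA := by
      have : (196 : ℝ) / 1000 - 2 * (16 / 3 / 800) ≥ 18 / 100 := by norm_num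
      nlinarith
    linarith
  refine ⟨c0, η, ?_, ?_, hη0, hclose⟩
  · have : 0 < 18 / 100 * PA := by positivity
    linarith
  · have hr0 : 0 ≤ r := le_trans (by positivity) hrB'
    calc 2 * η ≤ (100 * K * PB) * (18 / 100 * PA) := by
          rw [hη]
          have : 0 ≤ (K : ℝ) * PA * PB := by positivity
          nlinarith
      _ ≤ r * (c0 - η) := by gcongr

/-- Both cases together. -/
lemma core2 (A B : Law) (K : ℕ) (r : ℝ) (hAK : A.k ≤ K) (hBK : B.k ≤ K)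
    (hWA : A.mu ≤ 5 / 4 * A.Q A.k) (hWB : B.mu ≤ 5 / 4 * B.Q B.k)
    (hKA : 800 * (K : ℝ) ≤ A.Q A.k) (hKB : 800 * (K : ℝ) ≤ B.Q B.k)
    (hrA : 100 * (K : ℝ) ≤ r * A.Q A.k) (hrB : 100 * (K : ℝ) ≤ r * B.Q B.k) :
    ∃ c : ℕ → ℝ, omega A B = ∑ j ∈ B.Bd, B.Q j * c j - ∑ j ∈ A.Bd, A.Q j * c j ∧
      ∃ c0 η : ℝ, 0 < c0 - η ∧ 2 * η ≤ r * (c0 - η) ∧ 0 ≤ η ∧ ∀ j ≤ K, |c j - c0| ≤ η := by
  by_cases h : 49 / 100 ≤ ∑' n, B.f n * A.S n
  · exact ⟨chi A B, omega_eq_chi A B, core A B K r hAK hWA hKB hrB h⟩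
  · push Not at h
    have hK1 : (1 : ℝ) ≤ K := by
      have := A.hk
      exact_mod_cast (by omega : 1 ≤ K)
    have h1 := total A B
    have h2 : ∑' n, A.f n * B.f n ≤ 1 / 800 := by
      calc ∑' n, A.f n * B.f n ≤ ∑' n, A.f n * (1 / 800) := by
            apply (summable_ff A B).tsum_le_tsum _ (A.summable_f.mul_right _)
            intro n
            apply mul_le_mul_of_nonneg_left _ (A.hf0 n)
            refine (B.f_le n).trans ?_
            rw [one_div]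
            apply inv_anti₀ (by norm_num)
            nlinarith
        _ = 1 / 800 := by rw [tsum_mul_right, A.tsum_f, one_mul]
    have h3 : 49 / 100 ≤ ∑' n, A.f n * B.S n := by linarith
    refine ⟨chi B A, ?_, core B A K r hBK hWB hKA hrA h3⟩
    rw [omega_swap, omega_eq_chi B A]; ring

theorem stmOmegaNeg : StmOmegaNeg := by
  intro A B K r hAK hBK hWA hWB hKA hKB hrA hrB C A' B' hA' dA hB' dB hC hgap
  obtain ⟨c, hc, c0, η, hpos, h2η, hη0, hclose⟩ :=
    core2 A B K r hAK hBK hWA hWB hKA hKB hrA hrB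
  rw [hc, hA', hB', sum_union dA, sum_union dB]
  have h1 : ∑ j ∈ C, A.Q j * c j = ∑ j ∈ C, B.Q j * c j :=
    sum_congr rfl (fun j hj => by rw [hC j hj])
  rw [h1]
  have hBm : ∀ j ∈ B', j ∈ B.Bd := fun j hj => by rw [hB']; exact mem_union_right _ hj
  have hAm : ∀ j ∈ A', j ∈ A.Bd := fun j hj => by rw [hA']; exact mem_union_right _ hj
  have hup : ∑ j ∈ B', B.Q j * c j ≤ (∑ j ∈ B', B.Q j) * (c0 + η) := by
    rw [sum_mul]
    apply sum_le_sum
    intro j hj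
    apply mul_le_mul_of_nonneg_left _ (B.hQ j (hBm j hj)).le
    have h2 := (abs_le.1 (hclose j ((B.hB j (hBm j hj)).2.trans hBK))).2
    linarith
  have hlo : (∑ j ∈ A', A.Q j) * (c0 - η) ≤ ∑ j ∈ A', A.Q j * c j := by
    rw [sum_mul]
    apply sum_le_sum
    intro j hj
    apply mul_le_mul_of_nonneg_left _ (A.hQ j (hAm j hj)).le
    have h2 := (abs_le.1 (hclose j ((A.hB j (hAm j hj)).2.trans hAK))).1
    linarith
  set sB := ∑ j ∈ B', B.Q j with hsB
  set sA := ∑ j ∈ A', A.Q j with hsA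
  have hsB0 : 0 ≤ sB := sum_nonneg (fun j hj => (B.hQ j (hBm j hj)).le)
  have h3 : (1 + r) * sB * (c0 - η) < sA * (c0 - η) := by gcongr
  have h4 : sB * (c0 + η) ≤ (1 + r) * sB * (c0 - η) := by
    have : c0 + η ≤ (1 + r) * (c0 - η) := by linarith
    calc sB * (c0 + η) ≤ sB * ((1 + r) * (c0 - η)) := by gcongr
      _ = _ := by ring
  linarith

/-- The mean of the waiting time. -/
lemma hasSum_S (B : Law) : Summable B.S ∧ ∑' n, B.S n = B.mu := by
  have hsh : ∀ j ∈ B.Bd, HasSum (fun n => B.f (n + j)) 1 := by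
    intro j hj
    have h1 := (hasSum_nat_add_iff (f := B.f) j (g := 1)).2
    apply h1
    have h2 : ∑ i ∈ range j, B.f i = 0 := by
      apply sum_eq_zero
      intro i hi
      rw [mem_range] at hi
      exact B.hfk i (lt_of_lt_of_le hi (B.hB j hj).2)
    rw [h2, add_zero]
    exact B.hasSum_f
  have h1 : HasSum (fun n => ∑ j ∈ B.Bd, B.Q j * B.f (n + j)) (∑ j ∈ B.Bd, B.Q j * 1) :=
    hasSum_sum (fun j hj => (hsh j hj).mul_left _)
  have h2 : (fun n => ∑ j ∈ B.Bd, B.Q j * B.f (n + j)) = B.S := funext (fun n => (B.ren n).symm)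
  rw [h2] at h1
  simp only [mul_one] at h1
  exact ⟨h1.summable, h1.tsum_eq⟩

theorem stmOmegaSmall : StmOmegaSmall := by
  intro A B h
  have h1 := total A B
  obtain ⟨hS, hmu⟩ := hasSum_S B
  have hs1 := summable_fS A B
  have hs3 := summable_ff A B
  -- P(tau_A ≤ tau_B) ≤ P_A mu_B
  have h2 : ∑' n, A.f n * B.S n + ∑' n, A.f n * B.f n ≤ (A.Q A.k)⁻¹ * B.mu := by
    rw [← hs1.tsum_add hs3]
    have h3 : Summable (fun n => A.f n * B.S n + A.f n * B.f n) := hs1.add hs3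
    rw [h3.tsum_eq_zero_add, A.f_zero]
    simp only [zero_mul, add_zero, zero_add]
    rw [← hmu, ← tsum_mul_left]
    apply Summable.tsum_le_tsum _ ((summable_nat_add_iff (f := fun n =>
      A.f n * B.S n + A.f n * B.f n) 1).2 h3) (hS.mul_left _)
    intro n
    rw [B.S_succ]
    calc A.f (n + 1) * (B.S n - B.f (n + 1)) + A.f (n + 1) * B.f (n + 1)
        = A.f (n + 1) * B.S n := by ring
      _ ≤ (A.Q A.k)⁻¹ * B.S n := mul_le_mul_of_nonneg_right (A.f_le _) (B.hS0 n)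
  have h4 : 0 ≤ ∑' n, A.f n * B.f n := tsum_nonneg (fun n => mul_nonneg (A.hf0 _) (B.hf0 _))
  unfold omega
  linarith

end Pool.Agent.R946.Race
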