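import Pool.Agent.R946.Race.G

/-!
The comparison of the border chains of two words.
-/

namespace Pool.Agent.R946.Race

open Finset

section Bord

variable {α : Type} [DecidableEq α]

theorem mem_borders {A : List α} {j : ℕ} :
    j ∈ borders A ↔ 1 ≤ j ∧ j ≤ A.length ∧ A.take j = A.drop (A.length - j) := by
  unfold borders
  rw [mem_filter, mem_Icc, and_assoc]

theorem length_mem_borders {A : List α} (hA : A ≠ []) : A.length ∈ borders A := by
  rw [mem_borders]
  exact ⟨List.length_pos_of_ne_nil hA, le_rfl, by simp⟩

theorem borders_nil : borders ([] : List α) = ∅ := by
  unfold borders
  simp

theorem mem_borders_take {A : List α} {m j : ℕ} (hm : m ∈ borders A) (hj : j ≤ m) :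
    j ∈ borders (A.take m) ↔ j ∈ borders A := by
  rw [mem_borders] at hm
  obtain ⟨h1, h2, h3⟩ := hm
  have hl : (A.take m).length = m := by rw [List.length_take]; omega
  rw [mem_borders, mem_borders, hl]
  have e1 : (A.take m).take j = A.take j := by
    rw [List.take_take, min_eq_left hj]
  have e2 : (A.take m).drop (m - j) = A.drop (A.length - j) := by
    rw [h3, List.drop_drop]
    congr 1
    omega
  rw [e1, e2]
  constructor
  · rintro ⟨a, b, c⟩
    exact ⟨a, by omega, c⟩
  · rintro ⟨a, b, c⟩
    exact ⟨a, hj, c⟩

/-- the chain of borders -/
theorem borders_step {A : List α} (hA : A ≠ []) :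
    ∃ m : ℕ, m < A.length ∧ borders A = {A.length} ∪ borders (A.take m) ∧
      (∀ j ∈ borders (A.take m), j ≤ m) := by
  by_cases h : ((borders A).erase A.length).Nonempty
  · obtain ⟨m, hm, hmax⟩ := Finset.exists_max_image _ (fun j : ℕ => j) h
    rw [mem_erase] at hm
    have hmB := hm.2
    have hmlt : m < A.length := by
      have := (mem_borders.1 hmB).2.1
      omega
    have hle : ∀ j ∈ borders (A.take m), j ≤ m := by
      intro j hj
      have := (mem_borders.1 hj).2.1
      rw [List.length_take] at this
      omega
    refine ⟨m, hmlt, ?_, hle⟩
    ext j
    rw [mem_union, mem_singleton]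
    constructor
    · intro hj
      by_cases hjl : j = A.length
      · exact Or.inl hjl
      · right
        have := hmax j (mem_erase.2 ⟨hjl, hj⟩)
        exact (mem_borders_take hmB this).2 hj
    · rintro (rfl | hj)
      · exact length_mem_borders hA
      · exact (mem_borders_take hmB (hle j hj)).1 hj
  · refine ⟨0, List.length_pos_of_ne_nil hA, ?_, ?_⟩
    · rw [List.take_zero, borders_nil, union_empty]
      rw [not_nonempty_iff_eq_empty] at h
      ext j
      rw [mem_singleton]
      constructor
      · intro hj
        by_contra hne
        have : j ∈ (borders A).erase A.length := mem_erase.2 ⟨hne, hj⟩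
        rw [h] at this
        exact notMem_empty _ this
      · rintro rfl
        exact length_mem_borders hA
    · rw [List.take_zero, borders_nil]
      intro j hj
      exact absurd hj (notMem_empty _)

end Bord

theorem chain {s N : ℕ} (h3 : N % 3 = 2) (hN : 3 ^ 110 ≤ N) :
    ∀ (n : ℕ) (A B : List (Fin (s + 1))), A.length ≤ n → A ≠ [] → B ≠ [] →
    (borders A = borders B ∧ ∀ j ∈ borders A, QN N (A.take j) = QN N (B.take j)) ∨
    ∃ (C : Finset ℕ) (a b : List (Fin (s + 1))),
      borders A = C ∪ borders a ∧ borders B = C ∪ borders b ∧
      Disjoint C (borders a) ∧ Disjoint C (borders b) ∧
      (∀ j ∈ C, QN N (A.take j) = QN N (B.take j)) ∧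
      (∀ j ∈ borders a, A.take j = a.take j) ∧ (∀ j ∈ borders b, B.take j = b.take j) ∧
      ((a = [] ∧ b ≠ []) ∨ (a ≠ [] ∧ b = []) ∨ (a ≠ [] ∧ b ≠ [] ∧ QN N a ≠ QN N b)) ∧
      a.length ≤ A.length ∧ b.length ≤ B.length := by
  intro n
  induction n with
  | zero =>
    intro A B h hA
    exact absurd (List.length_eq_zero_iff.1 (Nat.le_zero.1 h)) hA
  | succ n ih =>
    intro A B hn hA hB
    by_cases hQ : QN N A = QN N B
    swap
    · right
      refine ⟨∅, A, B, by simp, by simp, by simp, by simp, by simp, by simp, by simp,
        Or.inr (Or.inr ⟨hA, hB, hQ⟩), le_rfl, le_rfl⟩
    · have hlen : A.length = B.length := length_eq_of_QN_eq h3 hN hQ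
      obtain ⟨m, hm, hbA, hmA⟩ := borders_step hA
      obtain ⟨m', hm', hbB, hmB⟩ := borders_step hB
      have hlm : (A.take m).length = m := by rw [List.length_take]; omega
      have hlm' : (B.take m').length = m' := by rw [List.length_take]; omega
      have tA : ∀ j, j ≤ m → (A.take m).take j = A.take j := by
        intro j hj
        rw [List.take_take, min_eq_left hj]
      have tB : ∀ j, j ≤ m' → (B.take m').take j = B.take j := by
        intro j hj
        rw [List.take_take, min_eq_left hj]
      have top : QN N (A.take A.length) = QN N (B.take A.length) := by
        rw [List.take_length, hlen, List.take_length, hQ]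
      by_cases ha : A.take m = []
      · by_cases hb : B.take m' = []
        · left
          rw [hbA, hbB, ha, hb, borders_nil, union_empty, union_empty, hlen]
          refine ⟨rfl, ?_⟩
          intro j hj
          rw [mem_singleton] at hj
          rw [hj, ← hlen]
          exact top
        · right
          refine ⟨{A.length}, [], B.take m', ?_, ?_, ?_, ?_, ?_, ?_, ?_,
            Or.inl ⟨rfl, hb⟩, by simp, ?_⟩
          · rw [hbA, ha]
          · rw [hbB, hlen]
          · rw [borders_nil]
            exact disjoint_empty_right _
          · rw [disjoint_singleton_left]
            intro h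
            have := hmB _ h
            omega
          · intro j hj
            rw [mem_singleton] at hj
            rw [hj]
            exact top
          · intro j hj
            rw [borders_nil] at hj
            exact absurd hj (notMem_empty _)
          · intro j hj
            exact (tB j (hmB j hj)).symm
          · rw [hlm']
            omega
      · by_cases hb : B.take m' = []
        · right
          refine ⟨{A.length}, A.take m, [], ?_, ?_, ?_, ?_, ?_, ?_, ?_,
            Or.inr (Or.inl ⟨ha, rfl⟩), ?_, by simp⟩
          · exact hbA
          · rw [hbB, hlen, hb]
          · rw [disjoint_singleton_left]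
            intro h
            have := hmA _ h
            omega
          · rw [borders_nil]
            exact disjoint_empty_right _
          · intro j hj
            rw [mem_singleton] at hj
            rw [hj]
            exact top
          · intro j hj
            exact (tA j (hmA j hj)).symm
          · intro j hj
            rw [borders_nil] at hj
            exact absurd hj (notMem_empty _)
          · rw [hlm]
            omega
        · rcases ih (A.take m) (B.take m') (by rw [hlm]; omega) ha hb with
            ⟨e1, e2⟩ | ⟨C, a, b, c1, c2, c3, c4, c5, c6, c7, c8, c9, c10⟩
          · left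
            rw [hbA, hbB, e1, hlen]
            refine ⟨rfl, ?_⟩
            intro j hj
            rw [mem_union, mem_singleton] at hj
            rcases hj with hj | hj
            · rw [hj, ← hlen]
              exact top
            · have hj' := hj
              rw [← e1] at hj'
              rw [← tA j (hmA j hj'), ← tB j (hmB j hj)]
              exact e2 j hj'
          · right
            have hCA : ∀ j ∈ C, j ∈ borders (A.take m) := by
              intro j hj
              rw [c1]
              exact mem_union_left _ hj
            have hCB : ∀ j ∈ C, j ∈ borders (B.take m') := by
              intro j hj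
              rw [c2]
              exact mem_union_left _ hj
            have haA : ∀ j ∈ borders a, j ∈ borders (A.take m) := by
              intro j hj
              rw [c1]
              exact mem_union_right _ hj
            have hbB' : ∀ j ∈ borders b, j ∈ borders (B.take m') := by
              intro j hj
              rw [c2]
              exact mem_union_right _ hj
            refine ⟨{A.length} ∪ C, a, b, ?_, ?_, ?_, ?_, ?_, ?_, ?_, c8, ?_, ?_⟩
            · rw [hbA, c1, union_assoc]
            · rw [hbB, c2, hlen, union_assoc]
            · rw [disjoint_union_left]
              refine ⟨?_, c3⟩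
              rw [disjoint_singleton_left]
              intro h
              have := hmA _ (haA _ h)
              omega
            · rw [disjoint_union_left]
              refine ⟨?_, c4⟩
              rw [disjoint_singleton_left]
              intro h
              have := hmB _ (hbB' _ h)
              omega
            · intro j hj
              rw [mem_union, mem_singleton] at hj
              rcases hj with hj | hj
              · rw [hj]
                exact top
              · rw [← tA j (hmA j (hCA j hj)), ← tB j (hmB j (hCB j hj))]
                exact c5 j hj
            · intro j hj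
              rw [← tA j (hmA j (haA j hj))]
              exact c6 j hj
            · intro j hj
              rw [← tB j (hmB j (hbB' j hj))]
              exact c7 j hj
            · rw [hlm] at c9
              omega
            · rw [hlm'] at c10
              omega

end Pool.Agent.R946.Race
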