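import Mathlib

/-!
Definitions for the pattern race problem (waiting times of words, races between independent
sources), and the abstract renewal data used in the proof.
-/

namespace Pool.Agent.R946.Race

open MeasureTheory Finset

/-- The law of one letter with weights `p`. -/
noncomputable def letter {s : ℕ} (p : Fin s → ℝ) : Measure (Fin s) :=
  ∑ i, ENNReal.ofReal (p i) • Measure.dirac i

/-- The law of a source: an infinite sequence of independent letters with weights `p`. -/
noncomputable def source {s : ℕ} (p : Fin s → ℝ) : Measure (ℕ → Fin s) :=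
  Measure.infinitePi (fun _ : ℕ => letter p)

/-- The word `A` is completed at time `n` in the sequence `x 0, x 1, x 2, ...`: the last
`A.length` letters among `x 0, ..., x (n-1)` spell `A`. -/
def Occ {s : ℕ} (A : List (Fin s)) (x : ℕ → Fin s) (n : ℕ) : Prop :=
  A.length ≤ n ∧ ∀ (i : ℕ) (h : i < A.length), x (n - A.length + i) = A[i]

/-- The waiting time of `A`. -/
noncomputable def tau {s : ℕ} (A : List (Fin s)) (x : ℕ → Fin s) : ℕ∞ :=
  ⨅ (n : ℕ) (_ : Occ A x n), (n : ℕ∞)

/-- The probability that `A` wins the race against `B`: two independent sources, the first for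
`A` and the second for `B`, a tie being decided by a fair coin. -/
noncomputable def race {s : ℕ} (p : Fin s → ℝ) (A B : List (Fin s)) : ℝ :=
  ((source p).prod (source p)).real {z | tau A z.1 < tau B z.2} +
    1 / 2 * ((source p).prod (source p)).real {z | tau A z.1 = tau B z.2}

/-- Lengths of the nonempty borders of a word (including the word itself). -/
def borders {α : Type} [DecidableEq α] (A : List α) : Finset ℕ :=
  (Finset.Icc 1 A.length).filter (fun j => A.take j = A.drop (A.length - j))

/-- The probability weight of a word. -/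
def wt {s : ℕ} (p : Fin s → ℝ) (A : List (Fin s)) : ℝ := (A.map p).prod

/-- Abstract renewal data of a waiting time: `f` is its probability mass function, `S` its
survival function, `Bd` the set of border lengths and `Q j` the inverse probability of the
border of length `j`. -/
structure Law where
  k : ℕ
  Bd : Finset ℕ
  Q : ℕ → ℝ
  f : ℕ → ℝ
  S : ℕ → ℝ
  hk : 1 ≤ k
  hkB : k ∈ Bd
  hB : ∀ j ∈ Bd, 1 ≤ j ∧ j ≤ k
  hQ : ∀ j ∈ Bd, 0 < Q j
  hf0 : ∀ n, 0 ≤ f n
  hfk : ∀ n, n < k → f n = 0
  hS : ∀ n, S n = 1 - ∑ m ∈ range (n + 1), f m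
  hS0 : ∀ n, 0 ≤ S n
  ren : ∀ n, S n = ∑ j ∈ Bd, Q j * f (n + j)
  sub : ∀ m n, S (m + n) ≤ S m * S n

/-- The mean waiting time. -/
noncomputable def Law.mu (L : Law) : ℝ := ∑ j ∈ L.Bd, L.Q j

/-- The race functional `P(tau_A < tau_B) - P(tau_B < tau_A)`. -/
noncomputable def omega (A B : Law) : ℝ :=
  ∑' n, A.f n * B.S n - ∑' n, B.f n * A.S n

/-- The integer `N ^ |A| * 3 ^ (number of nonzero letters of A)`. -/
def QN {s : ℕ} (N : ℕ) (A : List (Fin (s + 1))) : ℕ :=
  N ^ A.length * 3 ^ (A.countP (fun c => decide (c ≠ 0)))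

/-- The sum of `QN` over the borders. -/
def muN {s : ℕ} (N : ℕ) (A : List (Fin (s + 1))) : ℕ :=
  ∑ j ∈ borders A, QN N (A.take j)

end Pool.Agent.R946.Race
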