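import Pool.Agent.R946.Race.Stm

/-!
Pieces RACE-M1 and RACE-M2: the waiting time of a word in an i.i.d. sequence is a `Law`
(renewal identity, submultiplicativity), and the race formula.
-/

namespace Pool.Agent.R946.Race

open MeasureTheory Finset

namespace M

variable {s : ℕ} {p : Fin s → ℝ}

lemma letter_prob (hp : ∀ i, 0 < p i) (h1 : ∑ i, p i = 1) :
    IsProbabilityMeasure (letter p) := by
  constructor
  unfold letter
  rw [Measure.finsetSum_apply]
  simp only [Measure.smul_apply, measure_univ, smul_eq_mul, mul_one]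
  rw [← ENNReal.ofReal_sum_of_nonneg (fun i _ => (hp i).le), h1, ENNReal.ofReal_one]

lemma letter_singleton (a : Fin s) : letter p {a} = ENNReal.ofReal (p a) := by
  unfold letter
  rw [Measure.finsetSum_apply, Finset.sum_eq_single a]
  · simp
  · intro b _ hb
    simp [Measure.smul_apply, Measure.dirac_apply' _ (measurableSet_singleton a), hb]
  · intro h; exact absurd (Finset.mem_univ a) h

/-- Concatenation at position `m`. -/
def cat (m : ℕ) (z : (ℕ → Fin s) × (ℕ → Fin s)) : ℕ → Fin s :=
  fun i => if i < m then z.1 i else z.2 (i - m)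

lemma measurable_cat (m : ℕ) : Measurable (cat (s := s) m) := by
  apply measurable_pi_lambda
  intro i
  unfold cat
  by_cases h : i < m
  · simp only [h, if_true]; fun_prop
  · simp only [h, if_false]; fun_prop

lemma map_cat (hp : ∀ i, 0 < p i) (h1 : ∑ i, p i = 1) (m : ℕ) :
    ((source p).prod (source p)).map (cat m) = source p := by
  have := letter_prob hp h1
  unfold source
  apply Measure.eq_infinitePi
  intro S t ht
  rw [Measure.map_apply (measurable_cat m)
    (MeasurableSet.pi S.countable_toSet (fun i _ => ht i))]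
  have h : cat m ⁻¹' (↑S : Set ℕ).pi t =
     ((↑(S.filter (fun i => i < m)) : Set ℕ).pi t) ×ˢ
      ((↑((S.filter (fun i => ¬ i < m)).image (fun i => i - m)) : Set ℕ).pi
        (fun i => t (i + m))) := by
    ext ⟨x, y⟩
    simp only [Set.mem_preimage, Set.mem_pi, Set.mem_prod, Finset.mem_coe, Finset.mem_filter,
      Finset.mem_image]
    constructor
    · intro h
      refine ⟨fun i hi => ?_, ?_⟩
      · have := h i hi.1
        simpa [cat, hi.2] using this
      · rintro i ⟨j, hj, rfl⟩
        have := h j hj.1
        simp only [cat, hj.2, if_false] at this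
        have e : j - m + m = j := by omega
        rw [e]; exact this
    · rintro ⟨h1, h2⟩ i hi
      by_cases him : i < m
      · have := h1 i ⟨hi, him⟩
        simpa [cat, him] using this
      · have := h2 (i - m) ⟨i, ⟨hi, him⟩, rfl⟩
        rw [show i - m + m = i by omega] at this
        simpa [cat, him] using this
  rw [h, Measure.prod_prod, Measure.infinitePi_pi _ (fun i _ => ht i),
    Measure.infinitePi_pi _ (fun i _ => ht _)]
  rw [Finset.prod_image]
  · rw [← Finset.prod_filter_mul_prod_filter_not S (fun i => i < m)]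
    congr 1
    apply Finset.prod_congr rfl
    intro i hi
    rw [Finset.mem_filter] at hi
    rw [show i - m + m = i by omega]
  · intro i hi j hj hij
    simp only [Finset.coe_filter, Set.mem_ofPred_eq] at hi hj
    simp only at hij
    omega

lemma source_prob (hp : ∀ i, 0 < p i) (h1 : ∑ i, p i = 1) :
    IsProbabilityMeasure (source p) := by
  have := letter_prob hp h1
  unfold source
  infer_instance

lemma ind (hp : ∀ i, 0 < p i) (h1 : ∑ i, p i = 1) (m : ℕ) (E F : Set (ℕ → Fin s))
    (hE : MeasurableSet E) (hF : MeasurableSet F)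
    (hdep : ∀ x y : ℕ → Fin s, (∀ i < m, x i = y i) → (x ∈ E ↔ y ∈ E)) :
    (source p).real (E ∩ {x | (fun i => x (m + i)) ∈ F}) =
      (source p).real E * (source p).real F := by
  have := source_prob hp h1
  have hm : MeasurableSet (E ∩ {x : ℕ → Fin s | (fun i => x (m + i)) ∈ F}) :=
    hE.inter (measurableSet_preimage (measurable_pi_lambda _ (fun i => measurable_pi_apply _)) hF)
  have key : source p (E ∩ {x | (fun i => x (m + i)) ∈ F}) = source p E * source p F := by
    conv_lhs => rw [← map_cat hp h1 m]
    rw [Measure.map_apply (measurable_cat m) hm]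
    have : cat m ⁻¹' (E ∩ {x : ℕ → Fin s | (fun i => x (m + i)) ∈ F}) = E ×ˢ F := by
      ext ⟨x, y⟩
      have e1 : (cat m (x, y) ∈ E ↔ x ∈ E) := hdep _ _ (fun i hi => by simp [cat, hi])
      have e2 : (fun i => cat m (x, y) (m + i)) = y := by funext i; simp [cat]
      simp only [Set.mem_preimage, Set.mem_inter_iff, Set.mem_ofPred_eq, e1, e2, Set.mem_prod]
    rw [this, Measure.prod_prod]
  unfold Measure.real
  rw [key, ENNReal.toReal_mul]

/-- The sequences that start with the word `w`. -/
def Sp (w : List (Fin s)) : Set (ℕ → Fin s) := {x | ∀ (i : ℕ) (h : i < w.length), x i = w[i]}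

lemma mSp (w : List (Fin s)) : MeasurableSet (Sp w) := by
  have : Sp w = ⋂ (i : ℕ) (h : i < w.length), {x : ℕ → Fin s | x i = w[i]} := by
    ext x; simp [Sp]
  rw [this]
  refine MeasurableSet.iInter fun i => MeasurableSet.iInter fun h => ?_
  exact measurableSet_preimage (measurable_pi_apply i) (measurableSet_singleton _)

lemma wt_nonneg (hp : ∀ i, 0 < p i) (w : List (Fin s)) : 0 < wt p w := by
  unfold wt
  apply List.prod_pos
  intro a ha
  rw [List.mem_map] at ha
  obtain ⟨b, _, rfl⟩ := ha
  exact hp b

lemma block0 (hp : ∀ i, 0 < p i) (h1 : ∑ i, p i = 1) (w : List (Fin s)) :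
    (source p).real (Sp w) = wt p w := by
  have := source_prob hp h1
  have := letter_prob hp h1
  induction w with
  | nil =>
    have : Sp ([] : List (Fin s)) = Set.univ := by ext x; simp [Sp]
    rw [this]; simp [wt]
  | cons a w ih =>
    have e : Sp (a :: w) = {x | x 0 = a} ∩ {x | (fun i => x (1 + i)) ∈ Sp w} := by
      ext x
      simp only [Sp, Set.mem_ofPred_eq, Set.mem_inter_iff]
      constructor
      · intro h
        refine ⟨h 0 (by simp), fun i hi => ?_⟩
        have := h (i + 1) (by simpa using hi)
        rw [add_comm 1 i]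
        simpa using this
      · rintro ⟨h0, h⟩ i hi
        cases i with
        | zero => simpa using h0
        | succ i =>
          have := h i (by simpa using hi)
          rw [add_comm 1 i] at this
          simpa using this
    rw [e, ind hp h1 1 _ _ _ (mSp w), ih]
    · have h0 : (source p).real {x | x 0 = a} = p a := by
        have h2 : source p {x | x 0 = a} = letter p {a} := by
          have := Measure.infinitePi_map_eval (fun _ : ℕ => letter p) 0
          rw [← this, Measure.map_apply (measurable_pi_apply 0) (measurableSet_singleton a)]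
          rfl
        unfold Measure.real
        rw [h2, letter_singleton, ENNReal.toReal_ofReal (hp a).le]
      rw [h0]; simp [wt]
    · intro x y hxy
      simp only [Set.mem_ofPred_eq]
      rw [hxy 0 (by norm_num)]
    · exact measurableSet_preimage (measurable_pi_apply 0) (measurableSet_singleton _)

lemma lt_tau_iff {A : List (Fin s)} {x : ℕ → Fin s} {n : ℕ} :
    (n : ℕ∞) < tau A x ↔ ∀ t ≤ n, ¬ Occ A x t := by
  rw [← ENat.add_one_le_iff (ENat.natCast_ne_top n)]
  unfold tau
  rw [le_iInf₂_iff]
  constructor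
  · intro h t ht ho
    have h2 := h t ho
    have : n + 1 ≤ t := by exact_mod_cast h2
    omega
  · intro h t ho
    by_contra hlt
    have : t ≤ n := by
      by_contra h2
      apply hlt
      have : n + 1 ≤ t := by omega
      exact_mod_cast this
    exact h t this ho

lemma tau_eq_iff {A : List (Fin s)} {x : ℕ → Fin s} {n : ℕ} :
    tau A x = n ↔ Occ A x n ∧ ∀ t < n, ¬ Occ A x t := by
  constructor
  · intro h
    have h1 : ¬ ((n : ℕ∞) < tau A x) := by rw [h]; exact lt_irrefl _
    have h2 : ∀ t < n, ¬ Occ A x t := by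
      intro t ht ho
      have h3 : tau A x ≤ t := iInf₂_le t ho
      rw [h] at h3
      have : n ≤ t := by exact_mod_cast h3
      omega
    rw [lt_tau_iff] at h1
    push Not at h1
    obtain ⟨t, ht, ho⟩ := h1
    have : t = n := by
      rcases lt_or_eq_of_le ht with h | h
      · exact absurd ho (h2 t h)
      · exact h
    subst this
    exact ⟨ho, h2⟩
  · rintro ⟨h1, h2⟩
    apply le_antisymm (iInf₂_le n h1)
    rw [le_iInf₂_iff]
    intro t ho
    by_contra hlt
    refine h2 t ?_ ho
    by_contra h3
    apply hlt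
    have : n ≤ t := by omega
    exact_mod_cast this

lemma tau_ex {A : List (Fin s)} {x : ℕ → Fin s} {n : ℕ} (h : ¬ ((n : ℕ∞) < tau A x)) :
    ∃ m ≤ n, tau A x = m := by
  have hne : tau A x ≠ ⊤ := by
    intro e
    apply h
    rw [e]
    exact ENat.natCast_lt_top n
  obtain ⟨m, hm⟩ := ENat.ne_top_iff_exists.mp hne
  refine ⟨m, ?_, hm.symm⟩
  rw [← hm] at h
  push Not at h
  exact_mod_cast h

lemma Occ_congr {A : List (Fin s)} {x y : ℕ → Fin s} {n : ℕ} (h : ∀ i < n, x i = y i) :
    Occ A x n ↔ Occ A y n := by
  unfold Occ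
  constructor
  · rintro ⟨h1, h2⟩
    refine ⟨h1, fun i hi => ?_⟩
    rw [← h _ (by omega)]; exact h2 i hi
  · rintro ⟨h1, h2⟩
    refine ⟨h1, fun i hi => ?_⟩
    rw [h _ (by omega)]; exact h2 i hi

lemma mOcc (A : List (Fin s)) (n : ℕ) : MeasurableSet {x | Occ A x n} := by
  have : {x | Occ A x n} = {x : ℕ → Fin s | A.length ≤ n} ∩
      ⋂ (i : ℕ) (h : i < A.length), {x : ℕ → Fin s | x (n - A.length + i) = A[i]} := by
    ext x; simp [Occ]
  rw [this]
  refine MeasurableSet.inter (MeasurableSet.const _) ?_
  refine MeasurableSet.iInter fun i => MeasurableSet.iInter fun h => ?_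
  exact measurableSet_preimage (measurable_pi_apply _) (measurableSet_singleton _)

lemma mLt (A : List (Fin s)) (n : ℕ) : MeasurableSet {x | (n : ℕ∞) < tau A x} := by
  have : {x | (n : ℕ∞) < tau A x} = ⋂ (t : ℕ) (_ : t ≤ n), {x | Occ A x t}ᶜ := by
    ext x; simp [lt_tau_iff]
  rw [this]
  exact MeasurableSet.iInter fun t => MeasurableSet.iInter fun _ => (mOcc A t).compl

lemma mEq (A : List (Fin s)) (n : ℕ) : MeasurableSet {x | tau A x = (n : ℕ∞)} := by
  have : {x | tau A x = (n : ℕ∞)} =
      {x | Occ A x n} ∩ ⋂ (t : ℕ) (_ : t < n), {x | Occ A x t}ᶜ := by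
    ext x; simp [tau_eq_iff]
  rw [this]
  exact (mOcc A n).inter (MeasurableSet.iInter fun t => MeasurableSet.iInter fun _ =>
    (mOcc A t).compl)

lemma dLt (A : List (Fin s)) (n : ℕ) (x y : ℕ → Fin s) (h : ∀ i < n, x i = y i) :
    (x ∈ {x | (n : ℕ∞) < tau A x} ↔ y ∈ {x | (n : ℕ∞) < tau A x}) := by
  simp only [Set.mem_ofPred_eq, lt_tau_iff]
  constructor
  · intro h1 t ht ho
    exact h1 t ht ((Occ_congr (fun i hi => h i (by omega))).mpr ho)
  · intro h1 t ht ho
    exact h1 t ht ((Occ_congr (fun i hi => h i (by omega))).mp ho)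

lemma dEq (A : List (Fin s)) (n : ℕ) (x y : ℕ → Fin s) (h : ∀ i < n, x i = y i) :
    (x ∈ {x | tau A x = (n : ℕ∞)} ↔ y ∈ {x | tau A x = (n : ℕ∞)}) := by
  simp only [Set.mem_ofPred_eq, tau_eq_iff]
  constructor
  · rintro ⟨h0, h1⟩
    refine ⟨(Occ_congr h).mp h0, fun t ht ho => ?_⟩
    exact h1 t ht ((Occ_congr (fun i hi => h i (by omega))).mpr ho)
  · rintro ⟨h0, h1⟩
    refine ⟨(Occ_congr h).mpr h0, fun t ht ho => ?_⟩
    exact h1 t ht ((Occ_congr (fun i hi => h i (by omega))).mp ho)

/-- The two decompositions in the renewal identity. -/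
lemma ren_set {A : List (Fin s)} (hA : A ≠ []) (n : ℕ) :
    {x | (n : ℕ∞) < tau A x} ∩ {x | (fun i => x (n + i)) ∈ Sp A} =
      ⋃ j ∈ borders A, {x | tau A x = ((n + j : ℕ) : ℕ∞)} ∩
        {x | (fun i => x (n + j + i)) ∈ Sp (A.drop j)} := by
  ext x
  simp only [Set.mem_inter_iff, Set.mem_ofPred_eq, Set.mem_iUnion, Sp, exists_prop]
  constructor
  · rintro ⟨h1, h2⟩
    have hocc : Occ A x (n + A.length) := by
      refine ⟨by omega, fun i hi => ?_⟩
      rw [show n + A.length - A.length + i = n + i by omega]
      exact h2 i hi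
    have h3 : ¬ (((n + A.length : ℕ) : ℕ∞) < tau A x) := by
      rw [lt_tau_iff]; push Not
      exact ⟨_, le_rfl, hocc⟩
    obtain ⟨m, hm, hmt⟩ := tau_ex h3
    have hnm : n < m := by
      rw [hmt] at h1; exact_mod_cast h1
    obtain ⟨j, rfl⟩ : ∃ j, m = n + j := ⟨m - n, by omega⟩
    obtain ⟨ho, _⟩ := tau_eq_iff.mp hmt
    refine ⟨j, ?_, hmt, ?_⟩
    · unfold borders
      rw [Finset.mem_filter, Finset.mem_Icc]
      refine ⟨⟨by omega, by omega⟩, ?_⟩
      apply List.ext_getElem
      · simp; omega
      · intro i hi1 hi2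
        rw [List.getElem_take, List.getElem_drop]
        simp only [List.length_take] at hi1
        have hij : i < j := by omega
        have hiA : i < A.length := by omega
        have e1 := h2 i hiA
        have e2 := ho.2 (A.length - j + i) (by omega)
        have hle := ho.1
        rw [show n + j - A.length + (A.length - j + i) = n + i by omega] at e2
        rw [← e1, ← e2]
    · intro i hi
      rw [List.getElem_drop]
      have := h2 (j + i) (by simp at hi; omega)
      rw [← this, Nat.add_assoc]
  · rintro ⟨j, hj, hmt, h2⟩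
    unfold borders at hj
    rw [Finset.mem_filter, Finset.mem_Icc] at hj
    obtain ⟨⟨hj1, hj2⟩, hb⟩ := hj
    obtain ⟨ho, _⟩ := tau_eq_iff.mp hmt
    refine ⟨?_, ?_⟩
    · rw [hmt]; exact_mod_cast (by omega : n < n + j)
    · intro i hi
      by_cases hij : i < j
      · have hle := ho.1
        have e2 := ho.2 (A.length - j + i) (by omega)
        rw [show n + j - A.length + (A.length - j + i) = n + i by omega] at e2
        rw [e2]
        have e3 : (A.take j)[i]'(by simp; omega) = (A.drop (A.length - j))[i]'(by simp; omega) := by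
          simp only [hb]
        rw [List.getElem_take, List.getElem_drop] at e3
        exact e3.symm
      · have e := h2 (i - j) (by simp; omega)
        rw [List.getElem_drop] at e
        simp only [show n + j + (i - j) = n + i by omega, show j + (i - j) = i by omega] at e
        exact e

lemma sub_set (A : List (Fin s)) (m n : ℕ) :
    {x | ((m + n : ℕ) : ℕ∞) < tau A x} ⊆
      {x | (m : ℕ∞) < tau A x} ∩ {x | (fun i => x (m + i)) ∈ {y | (n : ℕ∞) < tau A y}} := by
  intro x hx
  simp only [Set.mem_ofPred_eq, Set.mem_inter_iff, lt_tau_iff] at hx ⊢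
  refine ⟨fun t ht ho => hx t (by omega) ho, fun t ht ho => hx (m + t) (by omega) ?_⟩
  obtain ⟨h1, h2⟩ := ho
  refine ⟨by omega, fun i hi => ?_⟩
  have := h2 i hi
  simp only at this
  rw [show m + t - A.length + i = m + (t - A.length + i) by omega]
  exact this

lemma wt_append (A B : List (Fin s)) : wt p (A ++ B) = wt p A * wt p B := by
  simp [wt]

/-- The race event as a disjoint union. -/
lemma race_set (hp : ∀ i, 0 < p i) (h1 : ∑ i, p i = 1) (A B : List (Fin s)) :
    MeasurableSet {z : (ℕ → Fin s) × (ℕ → Fin s) | tau A z.1 < tau B z.2} ∧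
    ((source p).prod (source p)).real {z | tau A z.1 < tau B z.2} =
      ∑' n : ℕ, (source p).real {x | tau A x = (n : ℕ∞)} *
        (source p).real {x | (n : ℕ∞) < tau B x} := by
  have := source_prob hp h1
  have e : {z : (ℕ → Fin s) × (ℕ → Fin s) | tau A z.1 < tau B z.2} =
      ⋃ n : ℕ, {x | tau A x = (n : ℕ∞)} ×ˢ {x | (n : ℕ∞) < tau B x} := by
    ext ⟨x, y⟩
    simp only [Set.mem_ofPred_eq, Set.mem_iUnion, Set.mem_prod]
    constructor
    · intro h
      have hne : tau A x ≠ ⊤ := ne_top_of_lt h
      obtain ⟨m, hm⟩ := ENat.ne_top_iff_exists.mp hne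
      exact ⟨m, hm.symm, by rw [hm]; exact h⟩
    · rintro ⟨n, h1, h2⟩
      rw [h1]; exact h2
  have hm : ∀ n : ℕ, MeasurableSet
      ({x | tau A x = (n : ℕ∞)} ×ˢ {x : ℕ → Fin s | (n : ℕ∞) < tau B x}) :=
    fun n => (mEq A n).prod (mLt B n)
  refine ⟨by rw [e]; exact MeasurableSet.iUnion hm, ?_⟩
  rw [e]
  unfold Measure.real
  rw [measure_iUnion _ hm, ENNReal.tsum_toReal_eq (fun n => measure_ne_top _ _)]
  · congr 1
    funext n
    rw [Measure.prod_prod, ENNReal.toReal_mul]
  · intro a b hab
    rw [Function.onFun, Set.disjoint_left]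
    rintro ⟨x, y⟩ h1 h2
    simp only [Set.mem_prod, Set.mem_ofPred_eq] at h1 h2
    apply hab
    have := h1.1.symm.trans h2.1
    exact_mod_cast this

lemma race_set' (hp : ∀ i, 0 < p i) (h1 : ∑ i, p i = 1) (A B : List (Fin s)) :
    MeasurableSet {z : (ℕ → Fin s) × (ℕ → Fin s) | tau B z.2 < tau A z.1} ∧
    ((source p).prod (source p)).real {z | tau B z.2 < tau A z.1} =
      ∑' n : ℕ, (source p).real {x | tau B x = (n : ℕ∞)} *
        (source p).real {x | (n : ℕ∞) < tau A x} := by
  have := source_prob hp h1
  obtain ⟨hm, hr⟩ := race_set hp h1 B A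
  have e : {z : (ℕ → Fin s) × (ℕ → Fin s) | tau B z.2 < tau A z.1} =
      Prod.swap ⁻¹' {z | tau B z.1 < tau A z.2} := by
    ext ⟨x, y⟩; simp
  refine ⟨by rw [e]; exact measurableSet_preimage measurable_swap hm, ?_⟩
  rw [← hr, e]
  unfold Measure.real
  rw [← Measure.map_apply measurable_swap hm, Measure.prod_swap]

end M

open M

theorem stmLaw : StmLaw := by
  intro s p hp h1 A hA
  have := source_prob hp h1
  have hlen : 1 ≤ A.length := List.length_pos_iff.mpr hA
  refine ⟨{
    k := A.length
    Bd := borders A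
    Q := fun j => (wt p (A.take j))⁻¹
    f := fun n => (source p).real {x | tau A x = (n : ℕ∞)}
    S := fun n => (source p).real {x | (n : ℕ∞) < tau A x}
    hk := hlen
    hkB := ?_
    hB := ?_
    hQ := ?_
    hf0 := fun n => measureReal_nonneg
    hfk := ?_
    hS := ?_
    hS0 := fun n => measureReal_nonneg
    ren := ?_
    sub := ?_ }, rfl, rfl, fun _ => rfl, fun _ => rfl, fun _ => rfl⟩
  · unfold borders
    rw [Finset.mem_filter, Finset.mem_Icc]
    simp [hlen]
  · intro j hj
    unfold borders at hj
    rw [Finset.mem_filter, Finset.mem_Icc] at hj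
    exact hj.1
  · intro j _
    exact inv_pos.mpr (wt_nonneg hp _)
  · intro n hn
    have : {x : ℕ → Fin s | tau A x = (n : ℕ∞)} = ∅ := by
      ext x
      simp only [Set.mem_ofPred_eq, Set.mem_empty_iff_false, iff_false]
      intro h
      have := (tau_eq_iff.mp h).1.1
      omega
    rw [this]; simp
  · intro n
    have e : {x : ℕ → Fin s | (n : ℕ∞) < tau A x} =
        (⋃ m ∈ range (n + 1), {x | tau A x = (m : ℕ∞)})ᶜ := by
      ext x
      simp only [Set.mem_ofPred_eq, Set.mem_compl_iff, Set.mem_iUnion, Finset.mem_range,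
        exists_prop, not_exists, not_and]
      constructor
      · intro h m hm he
        rw [he] at h
        have : n < m := by exact_mod_cast h
        omega
      · intro h
        by_contra h2
        obtain ⟨m, hm, he⟩ := tau_ex h2
        exact h m (by omega) he
    rw [e, measureReal_compl (Finset.measurableSet_biUnion _ (fun m _ => mEq A m)),
      measureReal_biUnion_finset]
    · simp
    · intro a _ b _ hab
      rw [Function.onFun, Set.disjoint_left]
      intro x h1 h2
      apply hab
      have := h1.symm.trans h2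
      exact_mod_cast this
    · exact fun m _ => mEq A m
  · intro n
    have e := congrArg (fun X => (source p).real X) (ren_set hA n)
    rw [ind hp h1 n _ _ (mLt A n) (mSp A) (dLt A n), block0 hp h1,
      measureReal_biUnion_finset] at e
    · have e2 : ∀ j ∈ borders A, (source p).real ({x | tau A x = ((n + j : ℕ) : ℕ∞)} ∩
          {x | (fun i => x (n + j + i)) ∈ Sp (A.drop j)}) =
          (source p).real {x | tau A x = ((n + j : ℕ) : ℕ∞)} * wt p (A.drop j) := by
        intro j _
        rw [ind hp h1 (n + j) _ _ (mEq A _) (mSp _) (dEq A _), block0 hp h1]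
      rw [Finset.sum_congr rfl e2] at e
      have hw : 0 < wt p A := wt_nonneg hp A
      have : (source p).real {x | (n : ℕ∞) < tau A x} =
          (∑ j ∈ borders A, (source p).real {x | tau A x = ((n + j : ℕ) : ℕ∞)} *
            wt p (A.drop j)) / wt p A := by
        rw [← e]; field_simp
      rw [this, Finset.sum_div]
      apply Finset.sum_congr rfl
      intro j _
      have hsplit : wt p A = wt p (A.take j) * wt p (A.drop j) := by
        rw [← wt_append, List.take_append_drop]
      have h3 := wt_nonneg hp (A.take j)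
      have h4 := wt_nonneg hp (A.drop j)
      rw [hsplit]
      field_simp
    · intro a _ b _ hab
      rw [Function.onFun, Set.disjoint_left]
      rintro x ⟨h1, _⟩ ⟨h2, _⟩
      apply hab
      have := h1.symm.trans h2
      have : n + a = n + b := by exact_mod_cast this
      omega
    · intro j _
      exact (mEq A _).inter (measurableSet_preimage
        (measurable_pi_lambda _ (fun i => measurable_pi_apply _)) (mSp _))
  · intro m n
    rw [← ind hp h1 m _ _ (mLt A m) (mLt A n) (dLt A m)]
    exact measureReal_mono (sub_set A m n)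

theorem stmRace : StmRace := by
  intro s p hp h1 A B LA LB hfA hSA hfB hSB
  have := source_prob hp h1
  obtain ⟨m1, r1⟩ := race_set hp h1 A B
  obtain ⟨m2, r2⟩ := race_set' hp h1 A B
  have e : {z : (ℕ → Fin s) × (ℕ → Fin s) | tau A z.1 = tau B z.2} =
      ({z | tau A z.1 < tau B z.2} ∪ {z | tau B z.2 < tau A z.1})ᶜ := by
    ext z
    simp only [Set.mem_ofPred_eq, Set.mem_compl_iff, Set.mem_union, not_or, not_lt]
    constructor
    · intro h; exact ⟨h.ge, h.le⟩
    · rintro ⟨h1, h2⟩; exact le_antisymm h2 h1
  have hd : Disjoint {z : (ℕ → Fin s) × (ℕ → Fin s) | tau A z.1 < tau B z.2}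
      {z | tau B z.2 < tau A z.1} := by
    rw [Set.disjoint_left]
    intro z h1 h2
    exact lt_asymm (show tau A z.1 < tau B z.2 from h1) h2
  unfold race omega
  simp only [hfA, hSA, hfB, hSB]
  rw [← r1, ← r2, e, measureReal_compl (m1.union m2), measureReal_union hd m2]
  simp only [probReal_univ]
  ring

end Pool.Agent.R946.Race
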