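import Pool.Agent.R946.Race.C
import Pool.Agent.R946.Race.M
import Pool.Agent.R946.Race.A4

/-!
Assembly of the pattern race project.
-/

namespace Pool.Agent.R946.Race

open Finset

/-- the law data belonging to a word -/
def IsLawOf {s : ℕ} (N : ℕ) (L : Law) (A : List (Fin (s + 1))) : Prop :=
  L.k = A.length ∧ L.Bd = borders A ∧ ∀ j, L.Q j = (QN N (A.take j) : ℝ)

theorem IsLawOf.Qk {s N : ℕ} {L : Law} {A : List (Fin (s + 1))} (h : IsLawOf N L A) :
    L.Q L.k = (QN N A : ℝ) := by
  rw [h.1, h.2.2, List.take_length]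

theorem IsLawOf.mu {s N : ℕ} {L : Law} {A : List (Fin (s + 1))} (h : IsLawOf N L A) :
    L.mu = (muN N A : ℝ) := by
  unfold Law.mu muN
  rw [h.2.1]
  push_cast
  exact sum_congr rfl (fun j _ => h.2.2 j)

theorem pow_mono_div {N K' K : ℕ} (hN : 2 ≤ N) (h1 : 1 ≤ K') (h : K' ≤ K) :
    K * N ^ K' ≤ K' * N ^ K := by
  obtain ⟨t, rfl⟩ := Nat.exists_eq_add_of_le h
  have ht : t + 1 ≤ 2 ^ t := Nat.lt_two_pow_self
  calc (K' + t) * N ^ K' ≤ (K' * 2 ^ t) * N ^ K' := by
        apply Nat.mul_le_mul_right
        calc K' + t ≤ K' * (t + 1) := by nlinarith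
          _ ≤ K' * 2 ^ t := Nat.mul_le_mul_left _ ht
    _ ≤ (K' * N ^ t) * N ^ K' := by
        apply Nat.mul_le_mul_right
        apply Nat.mul_le_mul_left
        exact Nat.pow_le_pow_left hN t
    _ = K' * N ^ (K' + t) := by rw [pow_add]; ring

theorem omega_le_zero {s N : ℕ} (h3 : N % 3 = 2) (hN : 3 ^ 110 ≤ N)
    {A B : List (Fin (s + 1))} (hA : A ≠ []) (hB : B ≠ []) {LA LB : Law}
    (hLA : IsLawOf N LA A) (hLB : IsLawOf N LB B) (hle : muN N B ≤ muN N A) :
    omega LA LB ≤ 0 := by
  by_cases hsm : (LA.Q LA.k)⁻¹ * LB.mu < 1 / 2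
  · exact (stmOmegaSmall LA LB hsm).le
  rw [not_lt] at hsm
  rcases chain h3 hN A.length A B le_rfl hA hB with
    ⟨e1, e2⟩ | ⟨C, a, b, c1, c2, c3, c4, c5, c6, c7, c8, c9, c10⟩
  · apply le_of_eq
    apply stmOmegaZero
    · rw [hLA.2.1, hLB.2.1, e1]
    · intro j hj
      rw [hLA.2.1] at hj
      rw [hLA.2.2, hLB.2.2, e2 j hj]
  · have hN2 : 2 ≤ N := le_trans (by norm_num) hN
    have hN2000 : 2000 ≤ N := le_trans (by norm_num) hN
    have hNr : (0:ℝ) < N := by exact_mod_cast (by omega : 0 < N)
    have qA := hLA.Qk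
    have qB := hLB.Qk
    have mA := hLA.mu
    have mB := hLB.mu
    obtain ⟨qm1, qm2⟩ := QN_le_muN_le hN hA
    obtain ⟨qm3, qm4⟩ := QN_le_muN_le hN hB
    have pA : (N : ℝ) ^ A.length ≤ QN N A := by exact_mod_cast pow_le_QN N A
    have pB : (N : ℝ) ^ B.length ≤ QN N B := by exact_mod_cast pow_le_QN N B
    have qm1' : (QN N A : ℝ) ≤ muN N A := by exact_mod_cast qm1
    have qm2' : (4 : ℝ) * muN N A ≤ 5 * QN N A := by exact_mod_cast qm2
    have qm3' : (QN N B : ℝ) ≤ muN N B := by exact_mod_cast qm3
    have qm4' : (4 : ℝ) * muN N B ≤ 5 * QN N B := by exact_mod_cast qm4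
    have hle' : (muN N B : ℝ) ≤ muN N A := by exact_mod_cast hle
    have QApos : (0:ℝ) < QN N A := lt_of_lt_of_le (by positivity) pA
    have QBpos : (0:ℝ) < QN N B := lt_of_lt_of_le (by positivity) pB
    have hsm' : (QN N A : ℝ) ≤ 2 * muN N B := by
      rw [qA, mB] at hsm
      have := mul_le_mul_of_nonneg_left hsm QApos.le
      rw [← mul_assoc, mul_inv_cancel₀ QApos.ne', one_mul] at this
      linarith
    set K : ℕ := max A.length B.length with hK
    have hK1 : 1 ≤ K := le_trans (List.length_pos_of_ne_nil hA) (le_max_left _ _)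
    have hKA : LA.k ≤ K := by rw [hLA.1]; exact le_max_left _ _
    have hKB : LB.k ≤ K := by rw [hLB.1]; exact le_max_right _ _
    -- the smaller weight
    have qAK : (2/5 : ℝ) * (N : ℝ) ^ K ≤ QN N A := by
      rcases le_total A.length B.length with h | h
      · rw [hK, max_eq_right h]
        nlinarith
      · rw [hK, max_eq_left h]
        have : (0:ℝ) ≤ (N : ℝ) ^ A.length := by positivity
        nlinarith
    have qBK : (2/5 : ℝ) * (N : ℝ) ^ K ≤ QN N B := by
      rcases le_total A.length B.length with h | h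
      · rw [hK, max_eq_right h]
        have : (0:ℝ) ≤ (N : ℝ) ^ B.length := by positivity
        nlinarith
      · rw [hK, max_eq_left h]
        nlinarith
    have hNK : (2000:ℝ) * K ≤ (N : ℝ) ^ K := by
      have h1 := pow_mono_div hN2 le_rfl hK1
      have h2 : 2000 * K ≤ N ^ K := by
        rw [pow_one, one_mul] at h1
        calc 2000 * K ≤ K * N := by rw [mul_comm]; exact Nat.mul_le_mul_left _ hN2000
          _ ≤ _ := h1
      exact_mod_cast h2
    set q : ℝ := 2/5 * (N : ℝ) ^ K with hq
    have hq0 : 0 < q := by positivity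
    have hKr : (1:ℝ) ≤ K := by exact_mod_cast hK1
    set r : ℝ := 100 * K / q with hr
    have hr0 : 0 < r := by positivity
    have hrq : r * q = 100 * K := by
      rw [hr, div_mul_cancel₀ _ hq0.ne']
    have hsumA : (∑ j ∈ borders a, LA.Q j) = (muN N a : ℝ) := by
      unfold muN
      push_cast
      apply sum_congr rfl
      intro j hj
      rw [hLA.2.2, c6 j hj]
    have hsumB : (∑ j ∈ borders b, LB.Q j) = (muN N b : ℝ) := by
      unfold muN
      push_cast
      apply sum_congr rfl
      intro j hj
      rw [hLB.2.2, c7 j hj]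
    have hab : muN N b ≤ muN N a := by
      have e1 : muN N A = ∑ j ∈ C, QN N (A.take j) + muN N a := by
        unfold muN
        rw [c1, sum_union c3]
        congr 1
        exact sum_congr rfl (fun j hj => by rw [c6 j hj])
      have e2 : muN N B = ∑ j ∈ C, QN N (A.take j) + muN N b := by
        unfold muN
        rw [c2, sum_union c4]
        congr 1
        · exact sum_congr rfl (fun j hj => by rw [c5 j hj])
        · exact sum_congr rfl (fun j hj => by rw [c7 j hj])
      omega
    have main : (1 + r) * (muN N b : ℝ) < muN N a := by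
      rcases c8 with ⟨ha, hb⟩ | ⟨ha, hb⟩ | ⟨ha, hb, hQ⟩
      · exfalso
        have h1 := (QN_le_muN_le hN hb).1
        have h2 := pow_le_QN N b
        have h4 : 0 < N ^ b.length := Nat.pow_pos (by omega)
        have h5 : muN N a = 0 := by
          rw [ha]
          unfold muN
          rw [borders_nil, sum_empty]
        omega
      · have h5 : muN N b = 0 := by
          rw [hb]
          unfold muN
          rw [borders_nil, sum_empty]
        have h1 := (QN_le_muN_le hN ha).1
        have h2 := pow_le_QN N a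
        have h4 : 0 < N ^ a.length := Nat.pow_pos (by omega)
        have h6 : 0 < muN N a := by omega
        rw [h5]
        simp only [Nat.cast_zero, mul_zero]
        exact_mod_cast h6
      · have hgap := stmGap s N h3 hN a b ha hb hQ hab
        set K' : ℕ := max a.length b.length with hK'
        have hK'1 : 1 ≤ K' := le_trans (List.length_pos_of_ne_nil ha) (le_max_left _ _)
        have hK'K : K' ≤ K := max_le_max c9 c10
        have hmono : (K : ℝ) * (N : ℝ) ^ K' ≤ K' * (N : ℝ) ^ K := by
          exact_mod_cast pow_mono_div hN2 hK'1 hK'K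
        have hab' : (muN N b : ℝ) ≤ muN N a := by exact_mod_cast hab
        have h1 := (QN_le_muN_le hN ha).1
        have h2 := pow_le_QN N a
        have h4 : 0 < N ^ a.length := Nat.pow_pos (by omega)
        have h6 : 0 < muN N a := by omega
        have h6' : (0:ℝ) < muN N a := by exact_mod_cast h6
        have hK'r : (1:ℝ) ≤ K' := by exact_mod_cast hK'1
        have hP : (0:ℝ) < (N : ℝ) ^ K' := by positivity
        -- r * N ^ K' ≤ 250 K'
        have hrK : r * (N : ℝ) ^ K' ≤ 250 * K' := by
          have e1 : r * (N : ℝ) ^ K' * q = 100 * (K * (N : ℝ) ^ K') := by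
            calc r * (N : ℝ) ^ K' * q = (r * q) * (N : ℝ) ^ K' := by ring
              _ = _ := by rw [hrq]; ring
          have e2 : r * (N : ℝ) ^ K' * q ≤ 250 * K' * q := by
            rw [e1, hq]
            nlinarith
          exact le_of_mul_le_mul_right e2 hq0
        -- conclusion
        have e3 : r * muN N b * (N : ℝ) ^ K' < (N : ℝ) ^ K' * ((muN N a : ℝ) - muN N b) := by
          calc r * muN N b * (N : ℝ) ^ K' = (r * (N : ℝ) ^ K') * muN N b := by ring
            _ ≤ (250 * K') * muN N b := by
                apply mul_le_mul_of_nonneg_right hrK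
                positivity
            _ ≤ (250 * K') * muN N a := by
                apply mul_le_mul_of_nonneg_left hab'
                positivity
            _ < 1000 * K' * muN N a := by
                have : (0:ℝ) < K' * muN N a := by positivity
                nlinarith
            _ ≤ _ := hgap
        have e4 : r * muN N b < (muN N a : ℝ) - muN N b := by
          rw [mul_comm] at e3
          exact lt_of_mul_lt_mul_left e3 hP.le
        linarith
    have h800 : 800 * (K : ℝ) ≤ q := by rw [hq]; linarith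
    refine (stmOmegaNeg LA LB K r hKA hKB ?_ ?_ ?_ ?_ ?_ ?_ C (borders a) (borders b) ?_ c3 ?_ c4
      ?_ ?_).le
    · rw [mA, qA]; linarith
    · rw [mB, qB]; linarith
    · rw [qA]; linarith
    · rw [qB]; linarith
    · rw [qA, ← hrq]
      exact mul_le_mul_of_nonneg_left qAK hr0.le
    · rw [qB, ← hrq]
      exact mul_le_mul_of_nonneg_left qBK hr0.le
    · rw [hLA.2.1, c1]
    · rw [hLB.2.1, c2]
    · intro j hj
      rw [hLA.2.2, hLB.2.2, c5 j hj]
    · rw [hsumA, hsumB]
      exact main

/-- the die: face `0` has probability `1 / N`, the other `s` faces `1 / (3 N)` each. -/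
noncomputable def die (N s : ℕ) : Fin (s + 1) → ℝ :=
  fun i => if i = 0 then 1 / (N : ℝ) else 1 / (3 * (N : ℝ))

theorem wt_die {s N : ℕ} (hN : 0 < N) (A : List (Fin (s + 1))) :
    (wt (die N s) A)⁻¹ = (QN N A : ℝ) := by
  have hNr : (N : ℝ) ≠ 0 := by positivity
  induction A with
  | nil => simp [wt, QN]
  | cons c A ih =>
    have e1 : wt (die N s) (c :: A) = die N s c * wt (die N s) A := by
      unfold wt
      rw [List.map_cons, List.prod_cons]
    have e2 : (QN N (c :: A) : ℝ) = (if c = 0 then (N : ℝ) else 3 * N) * QN N A := by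
      unfold QN
      by_cases h : c = 0
      · rw [List.countP_cons_of_neg (by simp [h]), List.length_cons, if_pos h]
        push_cast
        ring
      · rw [List.countP_cons_of_pos (by simp [h]), List.length_cons, if_neg h]
        push_cast
        ring
    rw [e1, e2, mul_inv, ih]
    congr 1
    unfold die
    split_ifs
    · rw [one_div, inv_inv]
    · rw [one_div, inv_inv]

theorem no_cycle {s N : ℕ} (h3 : N % 3 = 2) (hN : 3 ^ 110 ≤ N)
    (hp : ∀ i, 0 < die N s i) (hp1 : ∑ i, die N s i = 1)
    {A B : List (Fin (s + 1))} (hA : A ≠ []) (hB : B ≠ [])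
    (h : 1 / 2 < race (die N s) A B) : muN N A < muN N B := by
  have hN0 : 0 < N := lt_of_lt_of_le (by positivity) hN
  obtain ⟨LA, a1, a2, a3, a4, a5⟩ := stmLaw _ _ hp hp1 A hA
  obtain ⟨LB, b1, b2, b3, b4, b5⟩ := stmLaw _ _ hp hp1 B hB
  have hr := stmRace _ _ hp hp1 A B LA LB a4 a5 b4 b5
  have hLA : IsLawOf N LA A := ⟨a1, a2, fun j => by rw [a3, wt_die hN0]⟩
  have hLB : IsLawOf N LB B := ⟨b1, b2, fun j => by rw [b3, wt_die hN0]⟩
  by_contra hle
  rw [not_lt] at hle
  have := omega_le_zero h3 hN hA hB hLA hLB hle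
  rw [hr] at h
  linarith

end Pool.Agent.R946.Race
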