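import Pool.Agent.R946.Race.Stm

namespace Pool.Agent.R946.Race
namespace G
open Finset
open scoped Classical

variable {s : ℕ}

/-- number of nonzero letters -/
def nz (A : List (Fin (s+1))) : ℕ := A.countP (fun c => decide (c ≠ 0))

lemma QN_eq (N : ℕ) (A : List (Fin (s+1))) : QN N A = N ^ A.length * 3 ^ nz A := rfl

lemma nz_le (A : List (Fin (s+1))) : nz A ≤ A.length := List.countP_le_length

lemma nz_append (A B : List (Fin (s+1))) : nz (A ++ B) = nz A + nz B := by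
  unfold nz; exact List.countP_append

lemma QN_append (N : ℕ) (A B : List (Fin (s+1))) : QN N (A ++ B) = QN N A * QN N B := by
  rw [QN_eq, QN_eq, QN_eq, nz_append, List.length_append, pow_add, pow_add]; ring

lemma QN_nil (N : ℕ) : QN N ([] : List (Fin (s+1))) = 1 := by simp [QN]

lemma QN_pos {N : ℕ} (hN : 0 < N) (A : List (Fin (s+1))) : 0 < QN N A := by
  rw [QN_eq]; positivity

lemma pow_le_QN (N : ℕ) (A : List (Fin (s+1))) : N ^ A.length ≤ QN N A := by
  rw [QN_eq]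
  exact Nat.le_mul_of_pos_right _ (by positivity)

/-- periods -/
def IsPer (A : List (Fin (s+1))) (d : ℕ) : Prop := ∀ i, i + d < A.length → A[i+d]? = A[i]?

lemma isPer_iff (A : List (Fin (s+1))) (d : ℕ) :
    A.take (A.length - d) = A.drop d ↔ IsPer A d := by
  constructor
  · intro h i hi
    have := congrArg (fun l => l[i]?) h
    simp only [List.getElem?_take, List.getElem?_drop] at this
    rw [if_pos (by omega)] at this
    rw [this]; congr 1; omega
  · intro h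
    apply List.ext_getElem?
    intro i
    simp only [List.getElem?_take, List.getElem?_drop]
    by_cases hi : i + d < A.length
    · rw [if_pos (by omega), ← h i hi]; congr 1; omega
    · rw [if_neg (by omega), List.getElem?_eq_none (by omega)]

lemma isPer_zero (A : List (Fin (s+1))) : IsPer A 0 := by intro i hi; simp

lemma isPer_length (A : List (Fin (s+1))) : IsPer A A.length := by intro i hi; omega

lemma isPer_add {A : List (Fin (s+1))} {d j : ℕ} (hd : IsPer A d) (hj : IsPer A j) :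
    IsPer A (j + d) := by
  intro i hi
  have h1 := hj i (by omega)
  have h2 := hd (i + j) (by omega)
  rw [← h1, ← h2]; congr 1; omega

lemma isPer_sub {A : List (Fin (s+1))} {d j : ℕ} (hd : IsPer A d) (hj : IsPer A (j + d))
    (hl : j + d + d ≤ A.length) : IsPer A j := by
  intro i hi
  by_cases h : i + (j + d) < A.length
  · have h1 := hj i h
    have h2 := hd (i + j) (by omega)
    rw [← h1, ← h2]; congr 1; omega
  · -- i ≥ d
    have hid : d ≤ i := by omega
    have h1 := hd (i - d) (by omega)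
    have h2 := hj (i - d) (by omega)
    have e1 : i - d + d = i := by omega
    have e2 : i - d + (j + d) = i + j := by omega
    rw [e1] at h1
    rw [e2] at h2
    rw [h2, h1]

lemma QN_split {N : ℕ} {A : List (Fin (s+1))} {d : ℕ} (hd : IsPer A d) :
    QN N A = QN N (A.take d) * QN N (A.take (A.length - d)) := by
  rw [(isPer_iff A d).2 hd, ← QN_append, List.take_append_drop]

lemma QN_take_add {N : ℕ} {A : List (Fin (s+1))} {d j : ℕ} (hj : IsPer A j)
    (hl : j + d ≤ A.length) :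
    QN N (A.take (j + d)) = QN N (A.take j) * QN N (A.take d) := by
  rw [List.take_add, QN_append, ← (isPer_iff A j).2 hj, List.take_take, min_eq_left (by omega)]

/-- the weight of a period -/
noncomputable def w (N : ℕ) (A : List (Fin (s+1))) (j : ℕ) : ℝ :=
  if j < A.length ∧ IsPer A j then (QN N (A.take j) : ℝ)⁻¹ else 0

lemma mem_borders_iff (A : List (Fin (s+1))) (j : ℕ) :
    j ∈ borders A ↔ (1 ≤ j ∧ j ≤ A.length) ∧ IsPer A (A.length - j) := by
  unfold borders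
  rw [mem_filter, mem_Icc]
  constructor
  · rintro ⟨h1, h2⟩
    refine ⟨h1, (isPer_iff _ _).1 ?_⟩
    rw [show A.length - (A.length - j) = j by omega]; exact h2
  · rintro ⟨h1, h2⟩
    refine ⟨h1, ?_⟩
    have := (isPer_iff _ _).2 h2
    rw [show A.length - (A.length - j) = j by omega] at this; exact this

lemma mu_eq {N : ℕ} (hN : 0 < N) (A : List (Fin (s+1))) :
    (muN N A : ℝ) = QN N A * ∑ j ∈ range A.length, w N A j := by
  have h1 : ∀ j ∈ range A.length, (QN N A : ℝ) * w N A j =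
      if IsPer A j then (QN N (A.take (A.length - j)) : ℝ) else 0 := by
    intro j hj
    rw [mem_range] at hj
    unfold w
    by_cases hp : IsPer A j
    · rw [if_pos ⟨hj, hp⟩, if_pos hp, QN_split hp]
      have : (QN N (A.take j) : ℝ) ≠ 0 := by
        have := QN_pos hN (A.take j)
        positivity
      push_cast
      field_simp
    · rw [if_neg (fun h => hp h.2), if_neg hp, mul_zero]
  rw [mul_sum, sum_congr rfl h1, ← sum_filter]
  unfold muN
  push_cast
  refine Finset.sum_nbij' (fun j => A.length - j) (fun j => A.length - j) ?_ ?_ ?_ ?_ ?_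
  · intro j hj
    rw [mem_borders_iff] at hj
    rw [mem_filter, mem_range]
    exact ⟨by omega, hj.2⟩
  · intro j hj
    rw [mem_filter, mem_range] at hj
    rw [mem_borders_iff]
    refine ⟨by omega, ?_⟩
    rw [show A.length - (A.length - j) = j by omega]; exact hj.2
  · intro j hj
    rw [mem_borders_iff] at hj
    omega
  · intro j hj
    rw [mem_filter, mem_range] at hj
    omega
  · intro j hj
    rw [mem_borders_iff] at hj
    rw [show A.length - (A.length - j) = j by omega]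

lemma w_zero {N : ℕ} {A : List (Fin (s+1))} (hA : A ≠ []) : w N A 0 = 1 := by
  unfold w
  rw [if_pos ⟨List.length_pos_of_ne_nil hA, isPer_zero A⟩, List.take_zero, QN_nil]; simp

lemma w_nonneg (N : ℕ) (A : List (Fin (s+1))) (j : ℕ) : 0 ≤ w N A j := by
  unfold w; split_ifs <;> positivity

lemma w_le {N : ℕ} (hN : 0 < N) (A : List (Fin (s+1))) (j : ℕ) : w N A j ≤ ((N : ℝ)⁻¹) ^ j := by
  unfold w
  split_ifs with h
  · rw [inv_pow]
    apply inv_anti₀ (by positivity)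
    have := pow_le_QN N (A.take j)
    rw [List.length_take, min_eq_left h.1.le] at this
    exact_mod_cast this
  · positivity

lemma w_shift {N : ℕ} {A : List (Fin (s+1))} {d : ℕ} (hd : IsPer A d) (hd1 : 1 ≤ d) (j : ℕ)
    (hl : j + d + d ≤ A.length) :
    w N A (j + d) = w N A d * w N A j := by
  unfold w
  rw [if_pos (show d < A.length ∧ IsPer A d from ⟨by omega, hd⟩)]
  by_cases hj : IsPer A j
  · rw [if_pos ⟨by omega, isPer_add hd hj⟩, if_pos ⟨by omega, hj⟩, QN_take_add hj (by omega)]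
    push_cast
    rw [mul_inv, mul_comm]
  · rw [if_neg, if_neg, mul_zero]
    · exact fun h => hj h.2
    · rintro ⟨_, h⟩
      exact hj (isPer_sub hd h hl)

/-- tails of geometric sums -/
lemma tail_le {q : ℝ} (hq : 0 ≤ q) (hq2 : q ≤ 1/2) (f : ℕ → ℝ) (hf : ∀ j, f j ≤ q ^ j)
    (m k : ℕ) : ∑ j ∈ Finset.Ico m k, f j ≤ 2 * q ^ m := by
  have h1 : ∀ n, ∑ j ∈ range n, q ^ (m + j) ≤ 2 * q ^ m - 2 * q ^ (m + n) := by
    intro n
    induction n with
    | zero => simp
    | succ n ih =>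
      rw [sum_range_succ]
      have : q ^ (m + (n+1)) ≤ (1/2) * q ^ (m + n) := by
        rw [← add_assoc, pow_succ]
        nlinarith [pow_nonneg hq (m+n)]
      linarith
  rw [Finset.sum_Ico_eq_sum_range]
  calc ∑ j ∈ range (k - m), f (m + j) ≤ ∑ j ∈ range (k - m), q ^ (m + j) :=
        sum_le_sum (fun j _ => hf _)
    _ ≤ 2 * q ^ m - 2 * q ^ (m + (k - m)) := h1 _
    _ ≤ 2 * q ^ m := by linarith [pow_nonneg hq (m + (k - m))]

/-- total weight -/
noncomputable def W (N : ℕ) (A : List (Fin (s+1))) : ℝ := ∑ j ∈ range A.length, w N A j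

lemma W_ge {N : ℕ} {A : List (Fin (s+1))} (hA : A ≠ []) : 1 ≤ W N A := by
  unfold W
  calc (1:ℝ) = w N A 0 := (w_zero hA).symm
    _ ≤ _ := Finset.single_le_sum (fun j _ => w_nonneg N A j)
      (mem_range.2 (List.length_pos_of_ne_nil hA))

lemma inv_bound {N : ℕ} (hN : 2 ≤ N) : (0:ℝ) ≤ (N:ℝ)⁻¹ ∧ (N:ℝ)⁻¹ ≤ 1/2 := by
  have : (2:ℝ) ≤ N := by exact_mod_cast hN
  constructor
  · positivity
  · rw [one_div]; exact inv_anti₀ (by norm_num) this

lemma W_tail {N : ℕ} (hN : 2 ≤ N) {A : List (Fin (s+1))} (m : ℕ) :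
    0 ≤ ∑ j ∈ Finset.Ico m A.length, w N A j ∧
    ∑ j ∈ Finset.Ico m A.length, w N A j ≤ 2 * ((N:ℝ)⁻¹) ^ m := by
  constructor
  · exact sum_nonneg (fun j _ => w_nonneg N A j)
  · exact tail_le (inv_bound hN).1 (inv_bound hN).2 _ (w_le (by omega) A) m _

lemma W_le {N : ℕ} (hN : 2 ≤ N) {A : List (Fin (s+1))} (hA : A ≠ []) :
    W N A ≤ 1 + 2 * (N:ℝ)⁻¹ := by
  have hk := List.length_pos_of_ne_nil hA
  unfold W
  rw [Finset.range_eq_Ico, Finset.sum_eq_sum_Ico_succ_bot hk, w_zero hA]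
  have := (W_tail hN (A := A) 1).2
  rw [pow_one] at this
  linarith

/-- minimal period not at most `M` -/
lemma W_far {N : ℕ} (hN : 2 ≤ N) {A : List (Fin (s+1))} (hA : A ≠ []) {M : ℕ}
    (hmin : ∀ j, 1 ≤ j → j ≤ M → ¬ IsPer A j) :
    |W N A - 1| ≤ 2 * ((N:ℝ)⁻¹) ^ (M+1) := by
  have hk := List.length_pos_of_ne_nil hA
  have hM : M + 1 ≤ A.length := by
    by_contra h
    exact hmin A.length hk (by omega) (isPer_length A)
  have h1 : W N A = 1 + ∑ j ∈ Finset.Ico (M+1) A.length, w N A j := by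
    unfold W
    rw [← Finset.sum_range_add_sum_Ico _ hM, Finset.sum_range_succ', w_zero hA]
    have : ∑ j ∈ range M, w N A (j+1) = 0 := by
      apply sum_eq_zero
      intro j hj
      rw [mem_range] at hj
      unfold w
      rw [if_neg]
      rintro ⟨_, h⟩
      exact hmin (j+1) (by omega) (by omega) h
    rw [this]; ring
  have h2 := W_tail hN (A := A) (M+1)
  rw [h1, abs_of_nonneg (by linarith [h2.1])]
  linarith [h2.2]

/-- minimal period at most `M` -/
lemma W_near {N : ℕ} (hN : 2 ≤ N) {A : List (Fin (s+1))} (hA : A ≠ []) {M d : ℕ}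
    (hd1 : 1 ≤ d) (hdM : d ≤ M) (hMd : M + d ≤ A.length) (hd : IsPer A d)
    (hmin : ∀ j, 1 ≤ j → j < d → ¬ IsPer A j) :
    |W N A * (1 - (QN N (A.take d) : ℝ)⁻¹) - 1| ≤ 2 * ((N:ℝ)⁻¹) ^ (M+1) := by
  have hk := List.length_pos_of_ne_nil hA
  have hu : w N A d = (QN N (A.take d) : ℝ)⁻¹ := by
    unfold w; rw [if_pos ⟨by omega, hd⟩]
  rw [← hu]
  have h1 : W N A = (1 + w N A d * ∑ j ∈ range (M + 1 - d), w N A j) +
      ∑ j ∈ Finset.Ico (M+1) A.length, w N A j := by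
    unfold W
    rw [← Finset.sum_range_add_sum_Ico _ (show M + 1 ≤ A.length by omega)]
    congr 1
    rw [← Finset.sum_range_add_sum_Ico _ (show d ≤ M + 1 by omega)]
    congr 1
    · obtain ⟨e, rfl⟩ : ∃ e, d = e + 1 := ⟨d - 1, by omega⟩
      rw [Finset.sum_range_succ', w_zero hA]
      have : ∑ j ∈ range e, w N A (j+1) = 0 := by
        apply sum_eq_zero
        intro j hj
        rw [mem_range] at hj
        unfold w
        rw [if_neg]
        rintro ⟨_, h⟩
        exact hmin (j+1) (by omega) (by omega) h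
      rw [this]; ring
    · rw [Finset.sum_Ico_eq_sum_range, mul_sum]
      apply sum_congr rfl
      intro j hj
      rw [mem_range] at hj
      rw [add_comm d j, w_shift hd hd1 j (by omega)]
  have h2 : W N A = ∑ j ∈ range (M + 1 - d), w N A j +
      ∑ j ∈ Finset.Ico (M+1-d) A.length, w N A j := by
    unfold W
    rw [← Finset.sum_range_add_sum_Ico _ (show M + 1 - d ≤ A.length by omega)]
  set S := ∑ j ∈ range (M + 1 - d), w N A j
  set T1 := ∑ j ∈ Finset.Ico (M+1) A.length, w N A j with hT1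
  set T2 := ∑ j ∈ Finset.Ico (M+1-d) A.length, w N A j with hT2
  have hT1' := W_tail hN (A := A) (M+1)
  rw [← hT1] at hT1'
  have hT2' := W_tail hN (A := A) (M+1-d)
  rw [← hT2] at hT2'
  have hw := w_le (show 0 < N by omega) A d
  have hw0 := w_nonneg N A d
  have h3 : w N A d * T2 ≤ 2 * ((N:ℝ)⁻¹) ^ (M+1) := by
    calc w N A d * T2 ≤ ((N:ℝ)⁻¹) ^ d * (2 * ((N:ℝ)⁻¹) ^ (M+1-d)) :=
          mul_le_mul hw hT2'.2 hT2'.1 (by positivity)
      _ = 2 * (((N:ℝ)⁻¹) ^ d * ((N:ℝ)⁻¹) ^ (M+1-d)) := by ring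
      _ = _ := by rw [← pow_add]; congr 2; omega
  have h4 : W N A * (1 - w N A d) - 1 = T1 - w N A d * T2 := by
    have : W N A * (1 - w N A d) = W N A - w N A d * W N A := by ring
    rw [this]
    nth_rewrite 1 [h1]
    rw [h2]; ring
  rw [h4, abs_le]
  have h5 : 0 ≤ w N A d * T2 := mul_nonneg hw0 hT2'.1
  constructor <;> linarith [hT1'.1, hT1'.2]

/-- a word with period `d` whose first `d` letters are zero has only zero letters -/
lemma zero_of_per {A : List (Fin (s+1))} {d : ℕ} (hd1 : 1 ≤ d) (hd : IsPer A d)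
    (hz : nz (A.take d) = 0) : ∀ i, i < A.length → A[i]? = some 0 := by
  intro i
  induction i using Nat.strong_induction_on with
  | _ i ih =>
    intro hi
    by_cases hid : i < d
    · have h1 : (A.take d)[i]? = A[i]? := by rw [List.getElem?_take, if_pos hid]
      rw [← h1]
      unfold nz at hz
      rw [List.countP_eq_zero] at hz
      have h2 : i < (A.take d).length := by rw [List.length_take]; omega
      rw [List.getElem?_eq_getElem h2]
      have := hz _ (List.getElem_mem h2)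
      simp only [decide_eq_true_eq, not_not, ne_eq] at this
      rw [this]
    · have h1 := hd (i - d) (by omega)
      rw [show i - d + d = i by omega] at h1
      rw [h1]
      exact ih (i - d) (by omega) (by omega)

/-- the minimal period `d` with zero first letters is `1` -/
lemma min_eq_one {A : List (Fin (s+1))} {d : ℕ} (hd1 : 1 ≤ d) (hd : IsPer A d)
    (hmin : ∀ j, 1 ≤ j → j < d → ¬ IsPer A j) (hz : nz (A.take d) = 0) : d = 1 := by
  by_contra h
  apply hmin 1 le_rfl (by omega)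
  intro i hi
  rw [zero_of_per hd1 hd hz i (by omega), zero_of_per hd1 hd hz (i+1) hi]

/-- The key data of a word. -/
lemma word_key {N : ℕ} (hN : 3 ≤ N) (h3 : N % 3 = 2) {A : List (Fin (s+1))} (hA : A ≠ [])
    {D M : ℕ} (hDM : D ≤ M) (hl : M + D ≤ A.length) {dA : ℕ} (hd1 : 1 ≤ dA) (hd : IsPer A dA)
    (hmin : ∀ j, 1 ≤ j → j < dA → ¬ IsPer A j) (hwin : dA ≤ D ∨ M < dA) :
    ∃ n a b : ℕ, 0 < n ∧ Nat.Coprime n N ∧ Nat.Coprime n 3 ∧ A.length ≤ a ∧ a ≤ A.length + D ∧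
      b ≤ A.length + D ∧
      |(muN N A : ℝ) * (n / ((N:ℝ)^a * 3^b)) - 1| ≤ 2 * ((N:ℝ)⁻¹) ^ (M+1) ∧
      ((n:ℝ) / ((N:ℝ)^a * 3^b) ≤ 1 / (QN N A : ℝ)) ∧
      ((n = 1 ∧ a = A.length) ∨ (∃ d e : ℕ, 1 ≤ d ∧ n + 1 = N ^ d * 3 ^ e ∧ a = A.length + d)) := by
  have hN0 : 0 < N := by omega
  have hNr : (0:ℝ) < N := by exact_mod_cast hN0
  have hQ : (0:ℝ) < QN N A := by exact_mod_cast QN_pos hN0 A
  have hmu : (muN N A : ℝ) = QN N A * W N A := mu_eq hN0 A
  have hQe : (QN N A : ℝ) = (N:ℝ) ^ A.length * 3 ^ nz A := by rw [QN_eq]; push_cast; ring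
  rcases hwin with hw | hw
  · have hdl : dA ≤ A.length := by omega
    have hlen : (A.take dA).length = dA := by rw [List.length_take]; omega
    have hQd : QN N (A.take dA) = N ^ dA * 3 ^ nz (A.take dA) := by rw [QN_eq, hlen]
    have hQdp : 1 < QN N (A.take dA) := by
      have := pow_le_QN N (A.take dA)
      rw [hlen] at this
      have h2 : N ^ 1 ≤ N ^ dA := Nat.pow_le_pow_right hN0 hd1
      rw [pow_one] at h2
      omega
    have hnz := nz_le A
    have hnzd := nz_le (A.take dA)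
    have hQdr : (QN N (A.take dA) : ℝ) = (N:ℝ) ^ dA * 3 ^ nz (A.take dA) := by
      rw [hQd]; push_cast; ring
    have key : ((QN N (A.take dA) - 1 : ℕ) : ℝ) /
        ((N:ℝ)^(A.length + dA) * 3^(nz A + nz (A.take dA))) =
        (1 - (QN N (A.take dA) : ℝ)⁻¹) * (1 / (QN N A : ℝ)) := by
      rw [Nat.cast_sub hQdp.le, hQe, hQdr, pow_add, pow_add]
      field_simp
      push_cast
      ring
    refine ⟨QN N (A.take dA) - 1, A.length + dA, nz A + nz (A.take dA), by omega, ?_, ?_,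
      by omega, by omega, by omega, ?_, ?_, Or.inr ⟨dA, nz (A.take dA), hd1, ?_, rfl⟩⟩
    · have hdvd : N ∣ QN N (A.take dA) := by
        rw [hQd]; exact Dvd.dvd.mul_right (dvd_pow_self N (by omega)) _
      have : Nat.Coprime (QN N (A.take dA) - 1) (QN N (A.take dA)) := by
        have h := Nat.coprime_self_add_right (m := QN N (A.take dA) - 1) (n := 1)
        rw [show QN N (A.take dA) - 1 + 1 = QN N (A.take dA) by omega] at h
        rw [h]; exact Nat.coprime_one_right _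
      exact Nat.Coprime.coprime_dvd_right hdvd this
    · by_cases hz : nz (A.take dA) = 0
      · have hd1' := min_eq_one hd1 hd hmin hz
        rw [hQd, hz, hd1', pow_one, pow_zero, mul_one]
        rw [Nat.coprime_comm, Nat.Prime.coprime_iff_not_dvd Nat.prime_three]
        omega
      · have hdvd : 3 ∣ QN N (A.take dA) := by
          rw [hQd]; exact Dvd.dvd.mul_left (dvd_pow_self 3 hz) _
        rw [Nat.coprime_comm, Nat.Prime.coprime_iff_not_dvd Nat.prime_three]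
        omega
    · rw [key, hmu]
      have h := W_near (N := N) (by omega) hA hd1 (by omega : dA ≤ M) (by omega) hd hmin
      have e : (QN N A : ℝ) * W N A * ((1 - (QN N (A.take dA) : ℝ)⁻¹) * (1 / (QN N A : ℝ))) =
          W N A * (1 - (QN N (A.take dA) : ℝ)⁻¹) := by
        field_simp
      rw [e]; exact h
    · rw [key]
      have h1 : (0:ℝ) ≤ (QN N (A.take dA) : ℝ)⁻¹ := by positivity
      have h2 : (0:ℝ) ≤ 1 / (QN N A : ℝ) := by positivity
      nlinarith
    · rw [← hQd]; omega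
  · have hnz := nz_le A
    refine ⟨1, A.length, nz A, by omega, Nat.coprime_one_left _, Nat.coprime_one_left _, le_rfl,
      by omega, by omega, ?_, ?_, Or.inl ⟨rfl, rfl⟩⟩
    · have h := W_far (N := N) (by omega) hA (M := M) (fun j h1 h2 => hmin j h1 (by omega))
      rw [← hQe, hmu]
      have e : (QN N A : ℝ) * W N A * (((1:ℕ):ℝ) / (QN N A : ℝ)) = W N A := by
        push_cast; field_simp
      rw [e]; exact h
    · rw [← hQe]; push_cast; exact le_rfl

/-- uniqueness of the representation `N^a 3^b` -/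
lemma pow_unique {N : ℕ} (hN : 3 ≤ N) (h3 : N % 3 = 2) {a b a' b' : ℕ}
    (h : N ^ a * 3 ^ b = N ^ a' * 3 ^ b') : a = a' := by
  have hc : Nat.Coprime N 3 := by
    rw [Nat.coprime_comm, Nat.Prime.coprime_iff_not_dvd Nat.prime_three]; omega
  have key : ∀ {a b a' b' : ℕ}, N ^ a * 3 ^ b = N ^ a' * 3 ^ b' → a ≤ a' := by
    intro a b a' b' h
    have h1 : N ^ a ∣ N ^ a' * 3 ^ b' := by rw [← h]; exact Dvd.intro _ rfl
    have h2 : N ^ a ∣ N ^ a' :=
      Nat.Coprime.dvd_of_dvd_mul_right (Nat.Coprime.pow _ _ hc) h1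
    exact (Nat.pow_dvd_pow_iff_le_right (by omega)).1 h2
  exact le_antisymm (key h) (key h.symm)

lemma num_eq {N : ℕ} (hN : 3 ≤ N) (h3 : N % 3 = 2) {nA aA bA nB aB bB : ℕ}
    (hA : 0 < nA) (cA : Nat.Coprime nA N) (cA3 : Nat.Coprime nA 3)
    (cB : Nat.Coprime nB N) (cB3 : Nat.Coprime nB 3)
    (h : nA * (N ^ aB * 3 ^ bB) = nB * (N ^ aA * 3 ^ bA)) : nA = nB ∧ aA = aB := by
  have h1 : nA ∣ nB := by
    have : nA ∣ nB * (N ^ aA * 3 ^ bA) := by rw [← h]; exact Dvd.intro _ rfl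
    exact Nat.Coprime.dvd_of_dvd_mul_right
      (Nat.Coprime.mul_right (Nat.Coprime.pow_right _ cA) (Nat.Coprime.pow_right _ cA3)) this
  have h2 : nB ∣ nA := by
    have : nB ∣ nA * (N ^ aB * 3 ^ bB) := by rw [h]; exact Dvd.intro _ rfl
    exact Nat.Coprime.dvd_of_dvd_mul_right
      (Nat.Coprime.mul_right (Nat.Coprime.pow_right _ cB) (Nat.Coprime.pow_right _ cB3)) this
  have h3' : nA = nB := Nat.dvd_antisymm h1 h2
  refine ⟨h3', ?_⟩
  rw [← h3'] at h
  have h4 := Nat.eq_of_mul_eq_mul_left hA h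
  exact (pow_unique hN h3 h4).symm

/-- separation of two fractions with denominators `N^a 3^b` -/
lemma frac_sep {N : ℕ} (hN : 3 ≤ N) {nA aA bA nB aB bB R : ℕ}
    (haA : aA ≤ R) (hbA : bA ≤ R) (haB : aB ≤ R) (hbB : bB ≤ R)
    (hne : nA * (N ^ aB * 3 ^ bB) ≠ nB * (N ^ aA * 3 ^ bA)) :
    1 / ((N:ℝ)^R * 3^R) ≤ |(nA:ℝ) / ((N:ℝ)^aA * 3^bA) - (nB:ℝ) / ((N:ℝ)^aB * 3^bB)| := by
  have hNr : (0:ℝ) < N := by exact_mod_cast (show 0 < N by omega)
  have e : ∀ n a b : ℕ, a ≤ R → b ≤ R → (n:ℝ) / ((N:ℝ)^a * 3^b) =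
      ((n * (N^(R-a) * 3^(R-b)) : ℤ) : ℝ) / ((N:ℝ)^R * 3^R) := by
    intro n a b ha hb
    have h1 : (N:ℝ)^R = (N:ℝ)^a * (N:ℝ)^(R-a) := by rw [← pow_add]; congr 1; omega
    have h2 : (3:ℝ)^R = (3:ℝ)^b * (3:ℝ)^(R-b) := by rw [← pow_add]; congr 1; omega
    rw [h1, h2]
    push_cast
    field_simp
  have hneR : (nA:ℝ) / ((N:ℝ)^aA * 3^bA) ≠ (nB:ℝ) / ((N:ℝ)^aB * 3^bB) := by
    intro h
    rw [div_eq_div_iff (by positivity) (by positivity)] at h
    exact hne (by exact_mod_cast h)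
  rw [e nA aA bA haA hbA, e nB aB bB haB hbB] at hneR ⊢
  set IA : ℤ := (nA * (N^(R-aA) * 3^(R-bA)) : ℤ)
  set IB : ℤ := (nB * (N^(R-aB) * 3^(R-bB)) : ℤ)
  have hI : IA ≠ IB := fun h => hneR (by rw [h])
  have hI1 : (1:ℝ) ≤ |(IA:ℝ) - IB| := by
    have : 1 ≤ |IA - IB| := Int.one_le_abs (sub_ne_zero.2 hI)
    exact_mod_cast this
  rw [← sub_div, abs_div, abs_of_pos (show (0:ℝ) < (N:ℝ)^R * 3^R by positivity)]
  exact div_le_div_of_nonneg_right hI1 (by positivity)

lemma gap_real {MA MB xA xB η ρ X : ℝ} (hxA : 0 < xA) (hxB : 0 < xB)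
    (hAX : xA ≤ X) (hBX : xB ≤ X)
    (hA : |MA * xA - 1| ≤ η) (hB : |MB * xB - 1| ≤ η) (hη : η ≤ 1) (hρ : 0 ≤ ρ)
    (hgap : (2 * η + 2 * ρ) * X ≤ |xA - xB|) :
    ρ * MA ≤ |MA - MB| ∧ ρ * MB ≤ |MA - MB| := by
  have hη0 : 0 ≤ η := le_trans (abs_nonneg _) hA
  have hpos : 0 < xA * xB := mul_pos hxA hxB
  have e1 : |MA - MB| * (xA * xB) = |(xB - xA) + ((MA * xA - 1) * xB - (MB * xB - 1) * xA)| := by
    nth_rewrite 1 [← abs_of_pos hpos]; rw [← abs_mul]; congr 1; ring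
  have h2 : |(MA * xA - 1) * xB - (MB * xB - 1) * xA| ≤ 2 * η * X := by
    calc |(MA * xA - 1) * xB - (MB * xB - 1) * xA|
        ≤ |(MA * xA - 1) * xB| + |(MB * xB - 1) * xA| := abs_sub _ _
      _ = |MA * xA - 1| * xB + |MB * xB - 1| * xA := by
          rw [abs_mul, abs_mul, abs_of_pos hxA, abs_of_pos hxB]
      _ ≤ η * X + η * X := by gcongr
      _ = 2 * η * X := by ring
  have h3 : |xA - xB| ≤ |MA - MB| * (xA * xB) + 2 * η * X := by
    rw [e1, abs_sub_comm]
    have : xB - xA = ((xB - xA) + ((MA * xA - 1) * xB - (MB * xB - 1) * xA)) -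
      ((MA * xA - 1) * xB - (MB * xB - 1) * xA) := by ring
    calc |xB - xA| = |((xB - xA) + ((MA * xA - 1) * xB - (MB * xB - 1) * xA)) -
      ((MA * xA - 1) * xB - (MB * xB - 1) * xA)| := by rw [← this]
      _ ≤ _ := abs_sub _ _
      _ ≤ _ := by linarith
  have h4 : 2 * ρ * X ≤ |MA - MB| * (xA * xB) := by nlinarith
  have hA' := (abs_le.1 hA).2
  have hB' := (abs_le.1 hB).2
  have hX : 0 < X := lt_of_lt_of_le hxA hAX
  constructor
  · have : ρ * MA * (xA * xB) ≤ |MA - MB| * (xA * xB) := by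
      calc ρ * MA * (xA * xB) = ρ * ((MA * xA) * xB) := by ring
        _ ≤ ρ * (2 * X) := by
            apply mul_le_mul_of_nonneg_left _ hρ
            apply mul_le_mul (by linarith) hBX hxB.le (by norm_num)
        _ = 2 * ρ * X := by ring
        _ ≤ _ := h4
    exact le_of_mul_le_mul_right this hpos
  · have : ρ * MB * (xA * xB) ≤ |MA - MB| * (xA * xB) := by
      calc ρ * MB * (xA * xB) = ρ * ((MB * xB) * xA) := by ring
        _ ≤ ρ * (2 * X) := by
            apply mul_le_mul_of_nonneg_left _ hρ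
            apply mul_le_mul (by linarith) hAX hxA.le (by norm_num)
        _ = 2 * ρ * X := by ring
        _ ≤ _ := h4
    exact le_of_mul_le_mul_right this hpos

lemma exists_min {A : List (Fin (s+1))} (hA : A ≠ []) :
    ∃ d, 1 ≤ d ∧ IsPer A d ∧ ∀ j, 1 ≤ j → j < d → ¬ IsPer A j := by
  have h : ∃ d, 1 ≤ d ∧ IsPer A d := ⟨A.length, List.length_pos_of_ne_nil hA, isPer_length A⟩
  refine ⟨Nat.find h, (Nat.find_spec h).1, (Nat.find_spec h).2, ?_⟩
  intro j h1 h2 h3
  exact Nat.find_min h h2 ⟨h1, h3⟩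

lemma num1 {N K D g : ℕ} (hN : 3 ^ 110 ≤ N) (hg : g = K / 100) (hD : D ≤ 2 * g) :
    10 * 3 ^ (K + D) ≤ N ^ (g + 1) := by
  calc 10 * 3 ^ (K + D) ≤ 3 ^ 3 * 3 ^ (K + D) := Nat.mul_le_mul_right _ (by norm_num)
    _ = 3 ^ (3 + (K + D)) := by rw [← pow_add]
    _ ≤ 3 ^ (110 * (g + 1)) := Nat.pow_le_pow_right (by norm_num) (by omega)
    _ = (3 ^ 110) ^ (g + 1) := by rw [pow_mul]
    _ ≤ _ := Nat.pow_le_pow_left hN _

lemma num2 {N K D g : ℕ} (hN : 3 ^ 110 ≤ N) (hK : 1 ≤ K) (hg : g = K / 100) (hD : D ≤ 2 * g) :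
    5000 * K * 3 ^ (K + D) * N ^ D ≤ N ^ K := by
  have h1 : K ≤ 3 ^ K := (Nat.lt_pow_self (by norm_num)).le
  calc 5000 * K * 3 ^ (K + D) * N ^ D ≤ 3 ^ 8 * 3 ^ K * 3 ^ (K + D) * N ^ D := by
        gcongr; norm_num
    _ = 3 ^ (8 + K + (K + D)) * N ^ D := by rw [← pow_add, ← pow_add]
    _ ≤ 3 ^ (110 * (K - D)) * N ^ D := by
        apply Nat.mul_le_mul_right
        apply Nat.pow_le_pow_right (by norm_num) (by omega)
    _ = (3 ^ 110) ^ (K - D) * N ^ D := by rw [pow_mul]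
    _ ≤ N ^ (K - D) * N ^ D := by
        apply Nat.mul_le_mul_right
        exact Nat.pow_le_pow_left hN _
    _ = N ^ K := by rw [← pow_add]; congr 1; omega

lemma main_case {N : ℕ} (hN : 3 ^ 110 ≤ N) (h3 : N % 3 = 2) {A B : List (Fin (s+1))}
    (hA : A ≠ []) (hB : B ≠ []) (hk : B.length < A.length)
    (h1 : 4 * QN N A ≤ 5 * QN N B) :
    (1000:ℝ) * A.length * muN N A ≤ (N:ℝ) ^ A.length * |(muN N A : ℝ) - muN N B| ∧
    (1000:ℝ) * A.length * muN N B ≤ (N:ℝ) ^ A.length * |(muN N A : ℝ) - muN N B| := by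
  have hN3 : 3 ≤ N := le_trans (by norm_num) hN
  have hN0 : 0 < N := by omega
  have hNr : (0:ℝ) < N := by exact_mod_cast hN0
  obtain ⟨K, hK⟩ : ∃ K, K = A.length := ⟨_, rfl⟩
  -- lengths
  have hlen : 110 * (K - B.length) ≤ B.length := by
    have e1 : N ^ (K - B.length) * N ^ B.length = N ^ K := by
      rw [← pow_add]; congr 1; omega
    have e2 : 4 * N ^ (K - B.length) ≤ 5 * 3 ^ nz B := by
      have h2 : 4 * (N ^ (K - B.length) * N ^ B.length * 3 ^ nz A) ≤
          5 * (N ^ B.length * 3 ^ nz B) := by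
        rw [e1, hK]; exact h1
      have h4 : 1 ≤ 3 ^ nz A := Nat.one_le_pow _ _ (by norm_num)
      have h5 : N ^ B.length * (4 * N ^ (K - B.length)) ≤ N ^ B.length * (5 * 3 ^ nz B) := by
        calc N ^ B.length * (4 * N ^ (K - B.length))
            = 4 * (N ^ (K - B.length) * N ^ B.length * 1) := by ring
          _ ≤ 4 * (N ^ (K - B.length) * N ^ B.length * 3 ^ nz A) := by gcongr
          _ ≤ _ := h2
          _ = _ := by ring
      exact Nat.le_of_mul_le_mul_left h5 (by positivity)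
    have hnz := nz_le B
    by_contra hcon
    have h6 : 3 ^ (nz B + 1) ≤ N ^ (K - B.length) := by
      calc 3 ^ (nz B + 1) ≤ 3 ^ (110 * (K - B.length)) :=
            Nat.pow_le_pow_right (by norm_num) (by omega)
        _ = (3 ^ 110) ^ (K - B.length) := by rw [pow_mul]
        _ ≤ _ := Nat.pow_le_pow_left hN _
    have h7 : 0 < 3 ^ nz B := by positivity
    rw [pow_succ] at h6
    omega
  obtain ⟨g, hg⟩ : ∃ g, g = K / 100 := ⟨_, rfl⟩
  obtain ⟨dA, hdA1, hdA, hdAm⟩ := exists_min hA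
  obtain ⟨dB, hdB1, hdB, hdBm⟩ := exists_min hB
  obtain ⟨D, hD, hDA, hDB⟩ : ∃ D, D ≤ 2 * g ∧ (dA ≤ D ∨ D + g < dA) ∧
      (dB ≤ D ∨ D + g < dB) := by
    by_cases c0 : (dA ≤ 0 ∨ 0 + g < dA) ∧ (dB ≤ 0 ∨ 0 + g < dB)
    · exact ⟨0, by omega, c0.1, c0.2⟩
    by_cases c1 : (dA ≤ g ∨ g + g < dA) ∧ (dB ≤ g ∨ g + g < dB)
    · exact ⟨g, by omega, c1.1, c1.2⟩
    exact ⟨2 * g, le_rfl, by omega, by omega⟩
  obtain ⟨nA, aA, bA, hnA, cA, cA3, haA1, haA2, hbA, hmA, hxA, hdisA⟩ :=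
    word_key hN3 h3 hA (D := D) (M := D + g) (by omega) (by omega) hdA1 hdA hdAm hDA
  obtain ⟨nB, aB, bB, hnB, cB, cB3, haB1, haB2, hbB, hmB, hxB, hdisB⟩ :=
    word_key hN3 h3 hB (D := D) (M := D + g) (by omega) (by omega) hdB1 hdB hdBm hDB
  have hne : nA * (N ^ aB * 3 ^ bB) ≠ nB * (N ^ aA * 3 ^ bA) := by
    intro h
    obtain ⟨hn, ha⟩ := num_eq hN3 h3 hnA cA cA3 cB cB3 h
    rcases hdisA with ⟨hA1, hA2⟩ | ⟨d, e, hd1, hA1, hA2⟩ <;>
    rcases hdisB with ⟨hB1, hB2⟩ | ⟨d', e', hd1', hB1, hB2⟩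
    · omega
    · have : N ∣ nB + 1 := by
        rw [hB1]; exact Dvd.dvd.mul_right (dvd_pow_self N (by omega)) _
      have := Nat.le_of_dvd (by omega) this
      omega
    · have : N ∣ nA + 1 := by
        rw [hA1]; exact Dvd.dvd.mul_right (dvd_pow_self N (by omega)) _
      have := Nat.le_of_dvd (by omega) this
      omega
    · rw [hn, hB1] at hA1
      have := pow_unique hN3 h3 hA1
      omega
  have hsep := frac_sep (R := K + D) hN3 (by omega : aA ≤ K + D) (by omega : bA ≤ K + D)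
    (by omega : aB ≤ K + D) (by omega : bB ≤ K + D) hne
  have hnAr : (0:ℝ) < nA := by exact_mod_cast hnA
  have hnBr : (0:ℝ) < nB := by exact_mod_cast hnB
  have hQA : (N:ℝ) ^ K ≤ QN N A := by rw [hK]; exact_mod_cast pow_le_QN N A
  have hNK : (0:ℝ) < (N:ℝ) ^ K := by positivity
  have hQAp : (0:ℝ) < QN N A := lt_of_lt_of_le hNK hQA
  have h1r : (4:ℝ) * QN N A ≤ 5 * QN N B := by exact_mod_cast h1
  have hQBp : (0:ℝ) < QN N B := by linarith
  have hXA : (nA:ℝ) / ((N:ℝ)^aA * 3^bA) ≤ (5/4) / (N:ℝ)^K := by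
    refine le_trans hxA ?_
    rw [div_le_div_iff₀ hQAp hNK]
    linarith
  have hXB : (nB:ℝ) / ((N:ℝ)^aB * 3^bB) ≤ (5/4) / (N:ℝ)^K := by
    refine le_trans hxB ?_
    rw [div_le_div_iff₀ hQBp hNK]
    linarith
  have hη : 2 * ((N:ℝ)⁻¹) ^ (D + g + 1) ≤ 1 := by
    have h := inv_bound (show 2 ≤ N by omega)
    have : ((N:ℝ)⁻¹) ^ (D + g + 1) ≤ ((N:ℝ)⁻¹) ^ 1 :=
      pow_le_pow_of_le_one h.1 (by linarith [h.2]) (by omega)
    rw [pow_one] at this
    linarith [h.2]
  have n1 : (10:ℝ) * 3 ^ (K + D) ≤ (N:ℝ) ^ (g + 1) := by exact_mod_cast num1 hN hg hD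
  have n2 : (5000:ℝ) * K * 3 ^ (K + D) * (N:ℝ) ^ D ≤ (N:ℝ) ^ K := by
    exact_mod_cast num2 hN (by omega) hg hD
  have hgap : (2 * (2 * ((N:ℝ)⁻¹) ^ (D + g + 1)) + 2 * (1000 * K / (N:ℝ)^K)) *
      ((5/4) / (N:ℝ)^K) ≤ 1 / ((N:ℝ)^(K+D) * 3^(K+D)) := by
    have t1 : 2 * (2 * ((N:ℝ)⁻¹) ^ (D + g + 1)) * ((5/4) / (N:ℝ)^K) ≤
        (1/2) / ((N:ℝ)^(K+D) * 3^(K+D)) := by
      have e : 2 * (2 * ((N:ℝ)⁻¹) ^ (D + g + 1)) * ((5/4) / (N:ℝ)^K) =
          5 / ((N:ℝ)^(K+D) * (N:ℝ)^(g+1)) := by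
        rw [inv_pow, pow_add (N:ℝ) K D, add_assoc, pow_add (N:ℝ) D (g+1)]
        field_simp
        norm_num
      rw [e, div_le_div_iff₀ (by positivity) (by positivity)]
      have : (0:ℝ) < (N:ℝ)^(K+D) := by positivity
      nlinarith
    have t2 : 2 * (1000 * K / (N:ℝ)^K) * ((5/4) / (N:ℝ)^K) ≤
        (1/2) / ((N:ℝ)^(K+D) * 3^(K+D)) := by
      have e : 2 * (1000 * K / (N:ℝ)^K) * ((5/4) / (N:ℝ)^K) =
          2500 * K / ((N:ℝ)^K * (N:ℝ)^K) := by
        field_simp; norm_num; ring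
      rw [e, div_le_div_iff₀ (by positivity) (by positivity), pow_add (N:ℝ) K D]
      nlinarith
    calc _ = 2 * (2 * ((N:ℝ)⁻¹) ^ (D + g + 1)) * ((5/4) / (N:ℝ)^K) +
          2 * (1000 * K / (N:ℝ)^K) * ((5/4) / (N:ℝ)^K) := by ring
      _ ≤ (1/2) / ((N:ℝ)^(K+D) * 3^(K+D)) + (1/2) / ((N:ℝ)^(K+D) * 3^(K+D)) := add_le_add t1 t2
      _ = _ := by ring
  have hfin := gap_real (MA := (muN N A : ℝ)) (MB := (muN N B : ℝ)) (by positivity)
    (by positivity) hXA hXB hmA hmB hη (ρ := 1000 * K / (N:ℝ)^K) (by positivity)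
    (le_trans hgap hsep)
  rw [← hK]
  constructor
  · have := hfin.1
    rw [div_mul_eq_mul_div, div_le_iff₀ hNK] at this
    linarith
  · have := hfin.2
    rw [div_mul_eq_mul_div, div_le_iff₀ hNK] at this
    linarith

end G

open G

theorem pow_le_QN {s : ℕ} (N : ℕ) (A : List (Fin (s+1))) : N ^ A.length ≤ QN N A :=
  G.pow_le_QN N A

theorem QN_le_muN {s N : ℕ} (hN : 0 < N) {A : List (Fin (s+1))} (hA : A ≠ []) :
    QN N A ≤ muN N A := by
  have h : (QN N A : ℝ) ≤ muN N A := by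
    rw [mu_eq hN]
    have h1 : 1 ≤ W N A := W_ge hA
    have h2 : (0:ℝ) ≤ QN N A := by positivity
    unfold W at h1
    nlinarith
  exact_mod_cast h

theorem muN_le_aux {s N : ℕ} (hN : 3 ^ 110 ≤ N) {A : List (Fin (s+1))} (hA : A ≠ []) :
    (muN N A : ℝ) ≤ (1 + 1 / 100) * QN N A := by
  have hN1 : (1000:ℕ) ≤ N := le_trans (by norm_num) hN
  have hNr : (1000:ℝ) ≤ N := by exact_mod_cast hN1
  rw [mu_eq (by omega)]
  have h1 : W N A ≤ 1 + 2 * (N:ℝ)⁻¹ := W_le (by omega) hA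
  have h2 : (0:ℝ) ≤ QN N A := by positivity
  have h3 : (N:ℝ)⁻¹ ≤ 1/1000 := by rw [one_div]; exact inv_anti₀ (by norm_num) hNr
  have h4 : W N A ≤ 1 + 1/100 := by linarith
  unfold W at h4
  nlinarith

theorem four_muN_le {s N : ℕ} (hN : 3 ^ 110 ≤ N) {A : List (Fin (s+1))} (hA : A ≠ []) :
    4 * muN N A ≤ 5 * QN N A := by
  have h : (4:ℝ) * muN N A ≤ 5 * QN N A := by
    have h1 := muN_le_aux hN hA
    have h2 : (0:ℝ) ≤ QN N A := by positivity
    linarith
  exact_mod_cast h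

theorem QN_le_muN_le {s N : ℕ} (hN : 3 ^ 110 ≤ N) {A : List (Fin (s+1))} (hA : A ≠ []) :
    QN N A ≤ muN N A ∧ 4 * muN N A ≤ 5 * QN N A :=
  ⟨QN_le_muN (lt_of_lt_of_le (by positivity) hN) hA, four_muN_le hN hA⟩

theorem length_eq_of_QN_eq {s N : ℕ} (h3 : N % 3 = 2) (hN : 3 ^ 110 ≤ N)
    {A B : List (Fin (s+1))} (h : QN N A = QN N B) : A.length = B.length :=
  pow_unique (le_trans (by norm_num) hN) h3 h

theorem stmGap : StmGap := by
  intro s N h3 hN A B hA hB hne hle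
  have hN0 : 0 < N := lt_of_lt_of_le (by positivity) hN
  have hN1 : (1000000:ℕ) ≤ N := le_trans (by norm_num) hN
  have hQA := QN_le_muN hN0 hA
  have hQB := QN_le_muN hN0 hB
  have hUA := muN_le_aux hN hA
  have hUB := muN_le_aux hN hB
  have hQAr : (QN N A : ℝ) ≤ muN N A := by exact_mod_cast hQA
  have hQBr : (QN N B : ℝ) ≤ muN N B := by exact_mod_cast hQB
  have hler : (muN N B : ℝ) ≤ muN N A := by exact_mod_cast hle
  have hpA : 0 < QN N A := G.QN_pos hN0 A
  have hpB : 0 < QN N B := G.QN_pos hN0 B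
  have hpAr : (0:ℝ) < QN N A := by exact_mod_cast hpA
  have hpBr : (0:ℝ) < QN N B := by exact_mod_cast hpB
  by_cases c2 : 4 * QN N B ≤ 5 * QN N A
  swap
  · exfalso
    push Not at c2
    have c2r : (5:ℝ) * QN N A < 4 * QN N B := by exact_mod_cast c2
    linarith
  by_cases c1 : 4 * QN N A ≤ 5 * QN N B
  swap
  · push Not at c1
    have c1r : (5:ℝ) * QN N B < 4 * QN N A := by exact_mod_cast c1
    obtain ⟨K, hK⟩ : ∃ K, K = max A.length B.length := ⟨_, rfl⟩
    have hK1 : 1 ≤ K := by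
      have := List.length_pos_of_ne_nil hA
      rw [hK]; exact le_trans this (le_max_left _ _)
    rw [← hK]
    have hNK : 10000 * K ≤ N ^ K := by
      obtain ⟨m, rfl⟩ : ∃ m, K = m + 1 := ⟨K - 1, by omega⟩
      have h1 : m + 1 ≤ 2 ^ (m + 1) := (Nat.lt_pow_self (by norm_num)).le
      calc 10000 * (m + 1) ≤ 10000 * 2 ^ (m + 1) := Nat.mul_le_mul_left _ h1
        _ = 20000 * 2 ^ m := by rw [pow_succ]; ring
        _ ≤ N * N ^ m := Nat.mul_le_mul (by omega) (Nat.pow_le_pow_left (by omega) _)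
        _ = N ^ (m + 1) := by rw [pow_succ]; ring
    have hNKr : (10000:ℝ) * K ≤ (N:ℝ) ^ K := by exact_mod_cast hNK
    have hd : (1/10) * (muN N A : ℝ) ≤ muN N A - muN N B := by linarith
    have hmA : (0:ℝ) ≤ muN N A := by positivity
    calc (1000:ℝ) * K * muN N A = (10000 * K) * ((1/10) * muN N A) := by ring
      _ ≤ (N:ℝ)^K * (muN N A - muN N B) := by
          apply mul_le_mul hNKr hd (by positivity) (by positivity)
  have hlen : A.length ≠ B.length := by
    intro hl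
    apply hne
    rw [G.QN_eq, G.QN_eq, hl] at c1 c2 ⊢
    have hNp : 0 < N ^ B.length := by positivity
    have d1 : 4 * 3 ^ nz A ≤ 5 * 3 ^ nz B := by
      have : N ^ B.length * (4 * 3 ^ nz A) ≤ N ^ B.length * (5 * 3 ^ nz B) := by nlinarith
      exact Nat.le_of_mul_le_mul_left this hNp
    have d2 : 4 * 3 ^ nz B ≤ 5 * 3 ^ nz A := by
      have : N ^ B.length * (4 * 3 ^ nz B) ≤ N ^ B.length * (5 * 3 ^ nz A) := by nlinarith
      exact Nat.le_of_mul_le_mul_left this hNp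
    have key : ∀ a b : ℕ, 4 * 3 ^ a ≤ 5 * 3 ^ b → a ≤ b := by
      intro a b hab
      by_contra hcon
      have : 3 ^ (b + 1) ≤ 3 ^ a := Nat.pow_le_pow_right (by norm_num) (by omega)
      rw [pow_succ] at this
      have h0 : 0 < 3 ^ b := by positivity
      omega
    rw [le_antisymm (key _ _ d1) (key _ _ d2)]
  rcases lt_or_gt_of_ne hlen with h | h
  · have := (main_case hN h3 hB hA h c2).2
    rw [max_eq_right h.le, abs_sub_comm, abs_of_nonneg (by linarith)] at *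
    exact this
  · have := (main_case hN h3 hA hB h c1).1
    rw [abs_of_nonneg (by linarith)] at this
    rw [max_eq_left h.le]
    exact this

end Pool.Agent.R946.Race
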