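import Pool.Agent.R946.Race.Defs

/-!
Statements of the independent pieces of the pattern race project.
-/

namespace Pool.Agent.R946.Race

open MeasureTheory Finset

/-- RACE-M1: the waiting time of a word is a `Law`. -/
def StmLaw : Prop :=
  ∀ (s : ℕ) (p : Fin s → ℝ), (∀ i, 0 < p i) → ∑ i, p i = 1 → ∀ A : List (Fin s), A ≠ [] →
    ∃ L : Law, L.k = A.length ∧ L.Bd = borders A ∧ (∀ j, L.Q j = (wt p (A.take j))⁻¹) ∧
      (∀ n : ℕ, L.f n = (source p).real {x | tau A x = (n : ℕ∞)}) ∧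
      (∀ n : ℕ, L.S n = (source p).real {x | (n : ℕ∞) < tau A x})

/-- RACE-M2: the race probability in terms of `omega`. -/
def StmRace : Prop :=
  ∀ (s : ℕ) (p : Fin s → ℝ), (∀ i, 0 < p i) → ∑ i, p i = 1 → ∀ (A B : List (Fin s))
    (LA LB : Law),
    (∀ n : ℕ, LA.f n = (source p).real {x | tau A x = (n : ℕ∞)}) →
    (∀ n : ℕ, LA.S n = (source p).real {x | (n : ℕ∞) < tau A x}) →
    (∀ n : ℕ, LB.f n = (source p).real {x | tau B x = (n : ℕ∞)}) →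
    (∀ n : ℕ, LB.S n = (source p).real {x | (n : ℕ∞) < tau B x}) →
    race p A B = 1 / 2 + 1 / 2 * omega LA LB

/-- RACE-A1. -/
def StmOmegaSmall : Prop :=
  ∀ A B : Law, (A.Q A.k)⁻¹ * B.mu < 1 / 2 → omega A B < 0

/-- RACE-A2. -/
def StmOmegaNeg : Prop :=
  ∀ (A B : Law) (K : ℕ) (r : ℝ), A.k ≤ K → B.k ≤ K →
    A.mu ≤ 5 / 4 * A.Q A.k → B.mu ≤ 5 / 4 * B.Q B.k →
    800 * (K : ℝ) ≤ A.Q A.k → 800 * (K : ℝ) ≤ B.Q B.k →
    100 * (K : ℝ) ≤ r * A.Q A.k → 100 * (K : ℝ) ≤ r * B.Q B.k →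
    ∀ C A' B' : Finset ℕ, A.Bd = C ∪ A' → Disjoint C A' → B.Bd = C ∪ B' → Disjoint C B' →
    (∀ j ∈ C, A.Q j = B.Q j) →
    (1 + r) * ∑ j ∈ B', B.Q j < ∑ j ∈ A', A.Q j → omega A B < 0

/-- RACE-A3. -/
def StmOmegaZero : Prop :=
  ∀ A B : Law, A.Bd = B.Bd → (∀ j ∈ A.Bd, A.Q j = B.Q j) → omega A B = 0

/-- RACE-G: separation of the means. -/
def StmGap : Prop :=
  ∀ (s N : ℕ), N % 3 = 2 → 3 ^ 110 ≤ N → ∀ A B : List (Fin (s + 1)), A ≠ [] → B ≠ [] →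
    QN N A ≠ QN N B → muN N B ≤ muN N A →
    (1000 : ℝ) * (max A.length B.length : ℕ) * (muN N A : ℝ) ≤
      (N : ℝ) ^ (max A.length B.length) * ((muN N A : ℝ) - (muN N B : ℝ))

end Pool.Agent.R946.Race
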